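import Pool.Agent.Run7.h353.PJ.B9

set_option autoImplicit false

/-!
Two symmetric programs, acting on tagged sequences.
-/

namespace Pool.Agent.Run7.h353.PJ

open Encodable Pool.Agent.Helper227 Pool.Agent.H548R2.Post Pool.Agent.Run7.h353.PI
open Pool.Agent.H639.LU (Red dec nxt nxtv D1 N1 C1_nxt)
open Nat.Partrec (Code)

/-- the sequence with the tag `b` -/
def cn (b : Bool) (X : ℕ → Bool) (n : ℕ) : Bool := if n = 0 then b else X (n - 1)

@[simp] theorem cn_zero (b : Bool) (X : ℕ → Bool) : cn b X 0 = b := rfl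

@[simp] theorem sh_cn (b : Bool) (X : ℕ → Bool) : sh (cn b X) = X := by
  funext n
  simp [sh, cn]

theorem pre_cn (b : Bool) (X : ℕ → Bool) (s : ℕ) : pre (cn b X) (s + 1) = b :: pre X s := by
  rw [pre_cons, sh_cn, cn_zero]

theorem fl_cn (c : Code) (b : Bool) (X : ℕ → Bool) (g : ℕ) :
    fl c (cn b X) g = PI.fl c X (Nat.pair (if b = true then 1 else 0) g) := by
  unfold fl tgX
  rw [sh_cn, cn_zero]

theorem cn_tLe (b : Bool) (X : ℕ → Bool) : TLe (cn b X) X := by
  rw [tLe_iff_SI]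
  refine (SI.or (SI.of_prim (p := fun y : ℕ × Bool => y.1 = 0 ∧ b = y.2) ?_)
    (SI.and (SI.of_prim (p := fun y : ℕ × Bool => ¬ y.1 = 0) ?_)
      (SI.query.comp (f := fun y : ℕ × Bool => (y.1 - 1, y.2)) ?_))).of_eq fun y => ?_
  · exact PrimrecPred.and (Primrec.eq.comp Primrec.fst (Primrec.const 0))
      (Primrec.eq.comp (Primrec.const b) Primrec.snd)
  · exact PrimrecPred.not (Primrec.eq.comp Primrec.fst (Primrec.const 0))
  · exact (Primrec.nat_sub.comp Primrec.fst (Primrec.const 1)).pair Primrec.snd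
  · unfold cn
    by_cases h : y.1 = 0
    · simp [h]
    · simp [h]

theorem tLe_cn (b : Bool) (X : ℕ → Bool) : TLe X (cn b X) := by
  rw [tLe_iff_SI]
  refine (SI.query.comp (f := fun y : ℕ × Bool => (y.1 + 1, y.2))
    ((Primrec.succ.comp Primrec.fst).pair Primrec.snd)).of_eq fun y => ?_
  simp [cn]

/-- the operation on tagged strings -/
def tp (i j : Code) (σ : List Bool) : List Bool :=
  List.casesOn σ [] fun b τ => (!b) :: (if b = true then dec j τ else dec i τ)

theorem tp_cons (i j : Code) (b : Bool) (τ : List Bool) :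
    tp i j (b :: τ) = (!b) :: (if b = true then dec j τ else dec i τ) := rfl

theorem pr_tp (i j : Code) : Primrec (tp i j) := by
  refine Primrec.list_casesOn (f := fun σ : List Bool => σ) (g := fun _ => [])
    (h := fun _ p => (!p.1) :: (if p.1 = true then dec j p.2 else dec i p.2)) Primrec.id
    (Primrec.const []) ?_
  have h1 : Primrec fun y : List Bool × (Bool × List Bool) => y.2.1 :=
    Primrec.fst.comp Primrec.snd
  have h2 : Primrec fun y : List Bool × (Bool × List Bool) => y.2.2 :=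
    Primrec.snd.comp Primrec.snd
  exact Primrec.list_cons.comp (Primrec.not.comp h1)
    (Primrec.ite (Primrec.eq.comp h1 (Primrec.const true)) ((pr_dec j).comp h2)
      ((pr_dec i).comp h2))

theorem mono_tp (i j : Code) (σ τ : List Bool) (h : σ <+: τ) : tp i j σ <+: tp i j τ := by
  cases σ with
  | nil => exact List.nil_prefix
  | cons b σ =>
    cases τ with
    | nil => exact absurd h.length_le (by simp)
    | cons b' τ =>
      rw [List.cons_prefix_cons] at h
      obtain ⟨rfl, h⟩ := h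
      rw [tp_cons, tp_cons, List.cons_prefix_cons]
      refine ⟨rfl, ?_⟩
      split_ifs
      · exact D1.2.2.1 j _ _ h
      · exact D1.2.2.1 i _ _ h

theorem len_tp (i j : Code) (σ : List Bool) : (tp i j σ).length ≤ σ.length := by
  cases σ with
  | nil => exact le_rfl
  | cons b σ =>
    rw [tp_cons, List.length_cons, List.length_cons]
    split_ifs
    · exact Nat.succ_le_succ (D1.2.2.2 j _)
    · exact Nat.succ_le_succ (D1.2.2.2 i _)

theorem sys_tp (i j : Code) : Sys (tp i j) (tp j i) :=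
  ⟨pr_tp i j, pr_tp j i, mono_tp i j, mono_tp j i, len_tp i j, len_tp j i⟩

theorem tp_red {i j : Code} {b : Bool} {X Y : ℕ → Bool}
    (h : Red (if b = true then j else i) X Y) :
    (∀ s, tp i j (pre (cn b X) s) = pre (cn (!b) Y) (tp i j (pre (cn b X) s)).length) ∧
      ∀ t, ∃ s, t ≤ (tp i j (pre (cn b X) s)).length := by
  have e : ∀ τ, (if b = true then dec j τ else dec i τ) = dec (if b = true then j else i) τ := by
    intro τ
    split_ifs <;> rfl
  constructor
  · intro s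
    cases s with
    | zero => rfl
    | succ s =>
      rw [pre_cn, tp_cons, e, List.length_cons, pre_cn, ← dec_red h]
  · intro t
    obtain ⟨s, hs⟩ := dec_unbounded h t
    refine ⟨s + 1, ?_⟩
    rw [pre_cn, tp_cons, e, List.length_cons]
    omega

theorem ed_tp {i j : Code} {b : Bool} {X Y : ℕ → Bool}
    (h : Red (if b = true then j else i) X Y) (h' : Red (if b = true then j else i) Y X) :
    Ed (tp i j) (tp j i) (cn b X) (cn (!b) Y) := by
  refine ⟨tp_red h, ?_⟩
  have h1 := tp_red (i := j) (j := i) (b := !b) (X := Y) (Y := X) (by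
    cases b <;> exact h')
  rw [Bool.not_not] at h1
  exact h1

/-- invariance along an edge -/
theorem ed_inv {P Q : List Bool → List Bool} (S : Sys P Q) (c : Code) {U V : ℕ → Bool}
    (hE : Ed P Q U V) : (TLe V U ∧ TLe U V) ∧
      TLe (Ac P Q c U) (join V (Ac P Q c V)) ∧ TLe (Ac P Q c V) (join U (Ac P Q c U)) := by
  obtain ⟨I, Z, O, hk, rfl⟩ := exists_orb P Q U
  have hk1 : (0 : ℤ) + 1 ∈ I := by
    by_contra h
    exact O.rend 0 hk h ⟨V, hE⟩
  have hY : Z (0 + 1) = V := (O.edge 0 hk hk1).det hE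
  subst hY
  have t1 : TLe (Z (0 + 1)) (Z 0) := by
    have := O.tLe S hk 1 0 (by simpa using hk1)
    simpa using this
  have t2 : TLe (Z 0) (Z (0 + 1)) := by
    have := O.tLe S hk1 0 1 (by simpa using hk)
    simpa using this
  exact ⟨⟨t1, t2⟩, inv2 S O hk hk1 c, inv1 S O hk hk1 c⟩

theorem not_Ac_le {P Q : List Bool → List Bool} (S : Sys P Q) (c : Code) (X : ℕ → Bool) :
    ¬ TLe (Ac P Q c X) X := by
  intro h
  obtain ⟨I, Z, O, hk, rfl⟩ := exists_orb P Q X
  have h1 : SI (Z 0) fun x : ℕ => ¬ AX P Q c (Z 0) x := by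
    refine ((tLe_iff_SI.1 h).comp (f := fun x : ℕ => (x, false)) (Primrec.id.pair
      (Primrec.const false))).of_eq fun x => ?_
    rw [← Ac_true (P := P) (Q := Q) (c := c) (X := Z 0)]
    simp
  have h2 : CEIn (Z 0) {x | ¬ AX P Q c (Z 0) x} := SI.iff_ceIn.2 h1
  obtain ⟨e, he⟩ := ceIn_iff_exists_WE.1 h2
  obtain ⟨u, hu, G⟩ := exists_Gd S O hk e
  refine pos (c := c) S O hk G fun x => ?_
  rw [hu, ← he]
  rfl

/-- the set which belongs to `X` -/
noncomputable def Wc (P Q : List Bool → List Bool) (c : Code) (X : ℕ → Bool) : ℕ → Bool :=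
  join X (join (Ac P Q c (cn false X)) (Ac P Q c (cn true X)))

theorem chr_Wc {c : Code} {P Q : List Bool → List Bool} {X : ℕ → Bool} :
    chr {m | Wc P Q c X m = true} = Wc P Q c X := by
  funext m
  simp [chr]

/-- the approximation for the tag `b` -/
def AT (P Q : List Bool → List Bool) (c : Code) (b : Bool) (σ : List Bool) (x : ℕ) : Prop :=
  AS P Q c [] x ∨ AS P Q c (b :: σ) x

theorem AX_iff_AT {P Q : List Bool → List Bool} {c : Code} {b : Bool} {X : ℕ → Bool} {x : ℕ} :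
    AX P Q c (cn b X) x ↔ ∃ s, AT P Q c b (pre X s) x := by
  constructor
  · rintro ⟨s, hs⟩
    cases s with
    | zero => exact ⟨0, Or.inl hs⟩
    | succ s =>
      rw [pre_cn] at hs
      exact ⟨s, Or.inr hs⟩
  · rintro ⟨s, hs | hs⟩
    · exact ⟨0, hs⟩
    · refine ⟨s + 1, ?_⟩
      rw [pre_cn]
      exact hs

theorem pr_AT {α : Type*} [Primcodable α] {P Q : List Bool → List Bool} (S : Sys P Q) (c : Code)
    (b : Bool) {σ : α → List Bool} {x : α → ℕ} (hσ : Primrec σ) (hx : Primrec x) :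
    PrimrecPred fun a => AT P Q c b (σ a) (x a) :=
  PrimrecPred.or (pr_AS S c (Primrec.const []) hx)
    (pr_AS S c (Primrec.list_cons.comp (Primrec.const b) hσ) hx)

/-- the index -/
theorem exists_idx {P Q : List Bool → List Bool} (S : Sys P Q) (c : Code) :
    ∃ e : ℕ, ∀ X : ℕ → Bool, WE X e = {m | Wc P Q c X m = true} := by
  have hE : S1 fun x : List Bool × ℕ => (x.2 % 2 = 0 ∧ x.1[x.2 / 2]? = some true) ∨
      (x.2 % 2 = 1 ∧ ((x.2 / 2 % 2 = 0 ∧ AT P Q c false x.1 (x.2 / 2 / 2)) ∨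
        (x.2 / 2 % 2 = 1 ∧ AT P Q c true x.1 (x.2 / 2 / 2)))) := by
    have g2 : Primrec fun x : List Bool × ℕ => x.2 / 2 := pr_half Primrec.snd
    have g4 : Primrec fun x : List Bool × ℕ => x.2 / 2 / 2 := pr_half g2
    refine S1.of_prim (PrimrecPred.or (PrimrecPred.and (pr_par Primrec.snd 0) ?_)
      (PrimrecPred.and (pr_par Primrec.snd 1) (PrimrecPred.or (PrimrecPred.and (pr_par g2 0) ?_)
        (PrimrecPred.and (pr_par g2 1) ?_))))
    · exact Primrec.eq.comp (Primrec.list_getElem?.comp Primrec.fst (pr_half Primrec.snd))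
        (Primrec.const (some true))
    · exact pr_AT S c false Primrec.fst g4
    · exact pr_AT S c true Primrec.fst g4
  obtain ⟨d, hd⟩ := Nat.Partrec.Code.exists_code.1 hE.re
  refine ⟨encode d, fun X => ?_⟩
  ext m
  simp only [WE, Set.mem_ofPred_eq, Denumerable.ofNat_encode]
  have h1 : (∃ k : ℕ, (d.eval (encode ((List.range k).map X, m))).Dom) ↔
      ∃ k : ℕ, (m % 2 = 0 ∧ (pre X k)[m / 2]? = some true) ∨
      (m % 2 = 1 ∧ ((m / 2 % 2 = 0 ∧ AT P Q c false (pre X k) (m / 2 / 2)) ∨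
        (m / 2 % 2 = 1 ∧ AT P Q c true (pre X k) (m / 2 / 2)))) := by
    refine exists_congr fun k => ?_
    rw [hd]
    simp [Part.assert, pre]
  rw [h1]
  have h2 : ∀ k : ℕ, (pre X k)[m / 2]? = some true ↔ m / 2 < k ∧ X (m / 2) = true := by
    intro k
    unfold pre
    rw [List.getElem?_map]
    by_cases hk : m / 2 < k
    · rw [List.getElem?_eq_getElem (by simpa using hk)]
      simp [hk]
    · rw [List.getElem?_eq_none (by simpa using hk)]
      simp [hk]
  have h5 : Wc P Q c X m = true ↔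
      (if m % 2 = 0 then X (m / 2) = true else
        (if m / 2 % 2 = 0 then AX P Q c (cn false X) (m / 2 / 2) else
          AX P Q c (cn true X) (m / 2 / 2))) := by
    unfold Wc join
    split_ifs
    · exact Iff.rfl
    · exact Ac_true
    · exact Ac_true
  rw [h5]
  constructor
  · rintro ⟨k, ⟨h3, h4⟩ | ⟨h3, ⟨h4, h6⟩ | ⟨h4, h6⟩⟩⟩
    · rw [if_pos h3]
      exact ((h2 k).1 h4).2
    · rw [if_neg (by omega), if_pos h4]
      exact AX_iff_AT.2 ⟨k, h6⟩
    · rw [if_neg (by omega), if_neg (by omega)]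
      exact AX_iff_AT.2 ⟨k, h6⟩
  · intro h
    by_cases h3 : m % 2 = 0
    · rw [if_pos h3] at h
      exact ⟨m / 2 + 1, Or.inl ⟨h3, (h2 _).2 ⟨by omega, h⟩⟩⟩
    · rw [if_neg h3] at h
      by_cases h4 : m / 2 % 2 = 0
      · rw [if_pos h4] at h
        obtain ⟨k, hk⟩ := AX_iff_AT.1 h
        exact ⟨k, Or.inr ⟨by omega, Or.inl ⟨h4, hk⟩⟩⟩
      · rw [if_neg h4] at h
        obtain ⟨k, hk⟩ := AX_iff_AT.1 h
        exact ⟨k, Or.inr ⟨by omega, Or.inr ⟨by omega, hk⟩⟩⟩

theorem fl_cn_tLe (c : Code) (b : Bool) (X : ℕ → Bool) : TLe (fl c (cn b X)) (PI.fl c X) := by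
  rw [tLe_iff_SI]
  refine (SI.query.comp (f := fun y : ℕ × Bool => (Nat.pair (if b = true then 1 else 0) y.1, y.2))
    ((Primrec₂.natPair.comp (Primrec.const _) Primrec.fst).pair Primrec.snd)).of_eq fun y => ?_
  rw [fl_cn]

theorem Ac_cn_le {P Q : List Bool → List Bool} (S : Sys P Q) {c : Code}
    (hc : ∀ (g : ℕ) (b : Bool) (σ : List Bool),
      (c.eval (encode ((g, b), σ))).Dom ↔ Sim P Q c σ g b) (b : Bool) (X : ℕ → Bool) :
    TLe (Ac P Q c (cn b X)) (join X (PI.fl c X)) :=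
  (Ac_le S hc (cn b X)).trans (join_tLe ((cn_tLe b X).trans (tLe_join_left _ _))
    ((fl_cn_tLe c b X).trans (tLe_join_right _ _)))

theorem Ac_cn_Wc (P Q : List Bool → List Bool) (c : Code) (b : Bool) (X : ℕ → Bool) :
    TLe (Ac P Q c (cn b X)) (Wc P Q c X) := by
  cases b
  · exact (tLe_join_left _ _).trans (tLe_join_right _ _)
  · exact (tLe_join_right _ _).trans (tLe_join_right _ _)

theorem inv_tp (i j c : Code) {b : Bool} {X Y : ℕ → Bool}
    (h : Red (if b = true then j else i) X Y) (h' : Red (if b = true then j else i) Y X) :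
    TLe (Wc (tp i j) (tp j i) c X) (Wc (tp i j) (tp j i) c Y) := by
  have S := sys_tp i j
  obtain ⟨⟨a1, a2⟩, a3, a4⟩ := ed_inv S c (ed_tp h h')
  obtain ⟨⟨b1, b2⟩, b3, b4⟩ := ed_inv S c (ed_tp h' h)
  have hX : TLe X Y := (tLe_cn b X).trans (a2.trans (cn_tLe (!b) Y))
  have hj : ∀ b' : Bool, TLe (join (cn b' Y) (Ac (tp i j) (tp j i) c (cn b' Y)))
      (Wc (tp i j) (tp j i) c Y) := fun b' =>
    join_tLe ((cn_tLe b' Y).trans (tLe_join_left _ _)) (Ac_cn_Wc _ _ c b' Y)
  have h1 := a3.trans (hj (!b))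
  have h2 := b4.trans (hj b)
  refine join_tLe (hX.trans (tLe_join_left _ _)) ?_
  cases b
  · exact join_tLe h1 h2
  · exact join_tLe h2 h1

theorem main (i j : Code) : ∃ e : ℕ,
    (∀ X : ℕ → Bool, TLe X (chr (WE X e)) ∧ ¬ TLe (chr (WE X e)) X ∧
      TLe (chr (WE X e)) (jump X) ∧ ¬ TLe (jump X) (chr (WE X e)) ∧
      TLe (jump (chr (WE X e))) (jump X)) ∧
    ∀ X Y : ℕ → Bool, (Red i X Y ∧ Red i Y X) ∨ (Red j X Y ∧ Red j Y X) →
      TLe (chr (WE X e)) (chr (WE Y e)) ∧ TLe (chr (WE Y e)) (chr (WE X e)) := by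
  have S := sys_tp i j
  obtain ⟨c, hc⟩ := exists_fix S
  obtain ⟨e, he⟩ := exists_idx S c
  refine ⟨e, fun X => ?_, fun X Y h => ?_⟩
  · rw [he X, chr_Wc]
    have h1 : TLe (Wc (tp i j) (tp j i) c X) (join X (PI.fl c X)) :=
      join_tLe (tLe_join_left _ _) (join_tLe (Ac_cn_le S hc false X) (Ac_cn_le S hc true X))
    have h2 : TLe (jump (Wc (tp i j) (tp j i) c X)) (jump X) :=
      h1.jump.trans (low_fl (hsv_of_fix S hc X))
    refine ⟨tLe_join_left _ _, fun h => not_Ac_le S c (cn false X)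
      (((Ac_cn_Wc _ _ c false X).trans h).trans (tLe_cn false X)),
      (tLe_jump _).trans h2, fun h => not_jump_le _ (h2.trans h), h2⟩
  · rw [he, he, chr_Wc, chr_Wc]
    rcases h with ⟨h, h'⟩ | ⟨h, h'⟩
    · exact ⟨inv_tp i j c (b := false) h h', inv_tp i j c (b := false) h' h⟩
    · exact ⟨inv_tp i j c (b := true) h h', inv_tp i j c (b := true) h' h⟩

end Pool.Agent.Run7.h353.PJ
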