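import Pool.Agent.Run7.h353.PJ.B10
import Pool.Agent.Y579.PP.One

set_option autoImplicit false

/-!
Three symmetric programs generate Turing equivalence, two do not.
-/

namespace Pool.Agent.Run7.h353.PJ

open Encodable Pool.Agent.Helper227
open Pool.Agent.H639.LU (Red le St Str K7)
open Pool.Agent.H869R3.FN (le_iff le_refl' le_trans')
open Pool.Agent.Y579.PP (cns tl cns_tl flip_cns exists_case exists_out red_unique Pair
  exists_pair gen_iff Step X0 Fw fw_closed fw_list diag_comp comp_red red_flip)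
open Nat.Partrec (Code)

theorem chi_eq (X : ℕ → Bool) : Pool.Agent.Helper446.Defs.chi (St X) = chi X := by
  classical
  funext n
  unfold Pool.Agent.Helper446.Defs.chi chi Pool.Agent.Helper446.Defs.chiN St
  cases h : X n <;> simp [h]

theorem le_eq (X Y : ℕ → Bool) : le X Y ↔ TLe X Y := by
  unfold le TLe
  rw [chi_eq, chi_eq]

/-- the relation given by one symmetric program -/
def Sy (a : Code) (X Y : ℕ → Bool) : Prop := Red a X Y ∧ Red a Y X

theorem Sy.symm {a : Code} {X Y : ℕ → Bool} (h : Sy a X Y) : Sy a Y X := ⟨h.2, h.1⟩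

theorem Sy.le {a : Code} {X Y : ℕ → Bool} (h : Sy a X Y) : le X Y ∧ le Y X :=
  ⟨(le_iff _ _).2 ⟨a, h.2⟩, (le_iff _ _).2 ⟨a, h.1⟩⟩

theorem exists_swp (a b : Code) : ∃ c : Code, ∀ X Y : ℕ → Bool,
    (Red a X Y → Red c (cns false X) (cns true Y)) ∧
      (Red b X Y → Red c (cns true X) (cns false Y)) := by
  obtain ⟨a', ha⟩ := exists_out true a
  obtain ⟨b', hb⟩ := exists_out false b
  obtain ⟨c, hc⟩ := exists_case b' a'
  exact ⟨c, fun X Y => ⟨fun h => (hc X _).2 (ha X Y h), fun h => (hc X _).1 (hb X Y h)⟩⟩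

/-- the change of the second digit -/
def flip1 (X : ℕ → Bool) (n : ℕ) : Bool := if n = 1 then !(X 1) else X n

theorem flip1_cns (b : Bool) (X : ℕ → Bool) : flip1 (cns b X) = cns b (Pool.Agent.Y579.PP.flip X) := by
  funext n
  unfold flip1 cns Pool.Agent.Y579.PP.flip
  by_cases h0 : n = 0
  · subst h0
    simp
  · by_cases h1 : n = 1
    · subst h1
      simp
    · have h2 : ¬ n - 1 = 0 := by omega
      simp [h0, h1, h2]

theorem flip1_flip1 (X : ℕ → Bool) : flip1 (flip1 X) = X := by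
  funext n
  unfold flip1
  by_cases h : n = 1
  · simp [h]
  · simp [h]

theorem red_flip1 : ∃ c : Code, ∀ X : ℕ → Bool, Red c X (flip1 X) := by
  obtain ⟨f, hf⟩ := red_flip
  obtain ⟨a, ha⟩ := exists_out true f
  obtain ⟨b, hb⟩ := exists_out false f
  obtain ⟨c, hc⟩ := exists_case a b
  refine ⟨c, fun X => ?_⟩
  rw [← cns_tl X, flip1_cns]
  cases X 0
  · exact (hc _ _).2 (hb _ _ (hf _))
  · exact (hc _ _).1 (ha _ _ (hf _))

theorem red_iff_of {c : Code} {f : (ℕ → Bool) → ℕ → Bool} (h : ∀ X, Red c X (f X))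
    (X Y : ℕ → Bool) : Red c X Y ↔ Y = f X := by
  constructor
  · intro h1
    exact red_unique h1 (h X)
  · rintro rfl
    exact h X

/-- the relation given by three symmetric programs -/
def R3 (a b c : Code) (X Y : ℕ → Bool) : Prop := Sy a X Y ∨ Sy b X Y ∨ Sy c X Y

theorem tl_le (X : ℕ → Bool) : TLe (tl X) X := by
  have h := tLe_cn (X 0) (tl X)
  have h1 : cn (X 0) (tl X) = X := cns_tl X
  rwa [h1] at h

theorem le_tl (X : ℕ → Bool) : TLe X (tl X) := by
  have h := cn_tLe (X 0) (tl X)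
  have h1 : cn (X 0) (tl X) = X := cns_tl X
  rwa [h1] at h

theorem three : ∃ a b c : Code,
    (∀ X Y : ℕ → Bool, Red a X Y ↔ ∀ n, Y n = if n = 0 then !(X 0) else X n) ∧
    (∀ X Y : ℕ → Bool, Red b X Y ↔ ∀ n, Y n = if n = 1 then !(X 1) else X n) ∧
    ∀ X Y : ℕ → Bool, (TLe X Y ∧ TLe Y X) ↔ Relation.EqvGen (R3 a b c) X Y := by
  obtain ⟨i, j, hp, -⟩ := exists_pair
  obtain ⟨a, ha⟩ := red_flip
  obtain ⟨b, hb⟩ := red_flip1
  obtain ⟨c, hc⟩ := exists_swp i j
  refine ⟨a, b, c, fun X Y => (red_iff_of ha X Y).trans funext_iff,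
    fun X Y => (red_iff_of hb X Y).trans funext_iff, fun X Y => ⟨fun h => ?_, fun h => ?_⟩⟩
  · have sa : ∀ X, Sy a X (Pool.Agent.Y579.PP.flip X) := fun X => ⟨ha X, by
      have := ha (Pool.Agent.Y579.PP.flip X)
      rwa [Pool.Agent.Y579.PP.flip_flip] at this⟩
    have sb : ∀ X, Sy b X (flip1 X) := fun X => ⟨hb X, by
      have := hb (flip1 X)
      rwa [flip1_flip1] at this⟩
    have sc : ∀ U V, Red i U V → Red j V U → Sy c (cns false U) (cns true V) := fun U V h1 h2 =>
      ⟨(hc U V).1 h1, (hc V U).2 h2⟩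
    have h0 : ∀ X, Relation.EqvGen (R3 a b c) X (cns false (tl X)) := by
      intro X
      cases hX : X 0
      · have e : cns false (tl X) = X := by rw [← hX, cns_tl]
        rw [e]
        exact Relation.EqvGen.refl _
      · have e : cns false (tl X) = Pool.Agent.Y579.PP.flip X := by
          conv_rhs => rw [← cns_tl X, flip_cns, hX]
          rfl
        rw [e]
        exact Relation.EqvGen.rel _ _ (Or.inl (sa X))
    have h1 : Relation.EqvGen (Step i j) (tl X) (tl Y) := by
      rw [← gen_iff hp, le_eq, le_eq]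
      exact ⟨((tl_le X).trans h.1).trans (le_tl Y), ((tl_le Y).trans h.2).trans (le_tl X)⟩
    have h2 : ∀ U V, Relation.EqvGen (Step i j) U V →
        Relation.EqvGen (R3 a b c) (cns false U) (cns false V) := by
      intro U V h
      induction h with
      | rel U V h =>
        rcases h with rfl | ⟨h3, h4⟩
        · rw [← flip1_cns]
          exact Relation.EqvGen.rel _ _ (Or.inr (Or.inl (sb _)))
        · refine Relation.EqvGen.trans _ _ _
            (Relation.EqvGen.rel _ _ (Or.inr (Or.inr (sc U V h3 h4)))) ?_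
          have h5 := sa (cns true V)
          rw [flip_cns] at h5
          exact Relation.EqvGen.rel _ _ (Or.inl h5)
      | refl _ => exact Relation.EqvGen.refl _
      | symm _ _ _ ih => exact ih.symm
      | trans _ _ _ _ _ ih1 ih2 => exact ih1.trans _ _ _ ih2
    exact (h0 X).trans _ _ _ ((h2 _ _ h1).trans _ _ _ (h0 Y).symm)
  · rw [← le_eq, ← le_eq]
    induction h with
    | rel _ _ h =>
      rcases h with h | h | h
      · exact h.le
      · exact h.le
      · exact h.le
    | refl _ => exact ⟨le_refl' _, le_refl' _⟩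
    | symm _ _ _ ih => exact ⟨ih.2, ih.1⟩
    | trans _ _ _ _ _ ih1 ih2 => exact ⟨le_trans' ih1.1 ih2.1, le_trans' ih2.2 ih1.2⟩

/-- Two symmetric programs do not generate Turing equivalence. -/
theorem two_not (a b : Code) : ∃ X Y : ℕ → Bool, Computable X ∧ Computable Y ∧
    ¬ Relation.EqvGen (fun X Y => Sy a X Y ∨ Sy b X Y) X Y := by
  obtain ⟨p, hp⟩ := exists_swp a b
  obtain ⟨q, hq⟩ := exists_swp b a
  obtain ⟨e, he, he1, he2⟩ := fw_list p q
  obtain ⟨e', he', he1', he2'⟩ := fw_list q p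
  obtain ⟨κ, hκ, hκ'⟩ := K7
  have hδ : Primrec (fun p : ℕ × Str => p.2.getD (p.1 + 1) false) :=
    (Primrec.list_getD false).comp Primrec.snd (Primrec.succ.comp Primrec.fst)
  obtain ⟨d, hd⟩ := Pool.Agent.Y579.PP.exists_fun hδ.to_comp
    (u := fun n => n + 2) ((Primrec.succ.comp Primrec.succ).to_comp)
  have hd' : ∀ X : ℕ → Bool, Red d X (tl X) := fun X => (hd X _).2 fun n => by
    change X (n + 1) = (Pool.Agent.Helper446.Defs.seg X (n + 2)).getD (n + 1) false
    rw [Pool.Agent.Y579.PP.seg_getD _ _ _ (by omega)]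
  have hd2 : Computable (fun n : ℕ => n / 2) :=
    (Primrec.nat_div.comp Primrec.id (Primrec.const 2)).to_comp
  have hm2 : Computable (fun n : ℕ => decide (n % 2 = 0)) :=
    (Primrec.eq.decide.comp (Primrec.nat_mod.comp Primrec.id (Primrec.const 2))
      (Primrec.const 0)).to_comp
  have hE : Computable (fun n : ℕ => κ (bif decide (n % 2 = 0) then e (n / 2) else e' (n / 2), d)) :=
    hκ.comp ((Computable.cond hm2 (he.comp hd2) (he'.comp hd2)).pair (Computable.const d))
  obtain ⟨D, hD, hD'⟩ := diag_comp hE fun n => by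
    cases decide (n % 2 = 0)
    · obtain ⟨Y, hY⟩ := he1' (n / 2)
      exact ⟨tl Y, hκ' _ _ _ _ _ hY (hd' Y)⟩
    · obtain ⟨Y, hY⟩ := he1 (n / 2)
      exact ⟨tl Y, hκ' _ _ _ _ _ hY (hd' Y)⟩
  refine ⟨X0, D, Computable.const false, hD, fun h => ?_⟩
  have key : ∀ X Y, Relation.EqvGen (fun X Y => Sy a X Y ∨ Sy b X Y) X Y →
      ((∃ β n, Fw p q n (cns β X) ∨ Fw q p n (cns β X)) ↔
        ∃ β n, Fw p q n (cns β Y) ∨ Fw q p n (cns β Y)) := by
    have ed : ∀ (β : Bool) (X Y : ℕ → Bool), Sy (if β = true then b else a) X Y →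
        Relation.EqvGen (fun X Y => Red p X Y ∧ Red q Y X) (cns β X) (cns (!β) Y) := by
      intro β X Y h
      refine Relation.EqvGen.rel _ _ ?_
      cases β
      · exact ⟨(hp X Y).1 h.1, (hq Y X).2 h.2⟩
      · exact ⟨(hp X Y).2 h.1, (hq Y X).1 h.2⟩
    have one : ∀ X Y, Sy a X Y ∨ Sy b X Y → (∃ β n, Fw p q n (cns β X) ∨ Fw q p n (cns β X)) →
        ∃ β n, Fw p q n (cns β Y) ∨ Fw q p n (cns β Y) := by
      rintro X Y h ⟨β, hβ⟩
      refine ⟨!β, ?_⟩
      have e1 : Relation.EqvGen (fun X Y => Red p X Y ∧ Red q Y X) (cns β X) (cns (!β) Y) := by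
        rcases h with h | h
        · cases β
          · exact ed false X Y h
          · exact (ed false Y X h.symm).symm
        · cases β
          · exact (ed true Y X h.symm).symm
          · exact ed true X Y h
      exact (fw_closed e1).1 hβ
    intro X Y h
    induction h with
    | rel X Y h => exact ⟨one X Y h, one Y X (h.imp Sy.symm Sy.symm)⟩
    | refl _ => exact Iff.rfl
    | symm _ _ _ ih => exact ih.symm
    | trans _ _ _ _ _ ih1 ih2 => exact ih1.trans ih2
  have e0 : cns false X0 = X0 := by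
    funext n
    unfold cns X0
    split_ifs <;> rfl
  obtain ⟨β, n, hn⟩ := (key _ _ h).1 ⟨false, 0, Or.inl e0⟩
  have e1 : tl (cns β D) = D := rfl
  rcases hn with hn | hn
  · obtain ⟨m, hm⟩ := he2 n _ hn
    refine hD' (2 * m) ?_
    rw [decide_eq_true (by omega), cond_true, Nat.mul_div_cancel_left _ (by norm_num), ← e1]
    exact hκ' _ _ _ _ _ hm (hd' _)
  · obtain ⟨m, hm⟩ := he2' n _ hn
    refine hD' (2 * m + 1) ?_
    rw [decide_eq_false (by omega), cond_false, show (2 * m + 1) / 2 = m by omega, ← e1]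
    exact hκ' _ _ _ _ _ hm (hd' _)

end Pool.Agent.Run7.h353.PJ
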