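import Pool.Agent.Run7.h353.PI.A10

set_option autoImplicit false

/-!
The decisions, for sequences with a tag (the first digit). The function which gives the
permissions belongs to the sequence without the tag.
-/

namespace Pool.Agent.Run7.h353.PJ

open Encodable Pool.Agent.Helper227 Pool.Agent.H548R2.Post Pool.Agent.Run7.h353.PI
open Nat.Partrec (Code)

/-- the first digit as a number -/
def tg (σ : List Bool) : ℕ := if σ.getD 0 false = true then 1 else 0

/-- approximation to the function, for tagged sequences -/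
noncomputable def F (c : Code) (σ : List Bool) (g : ℕ) : Bool := PI.F c σ.tail (Nat.pair (tg σ) g)

/-- the sequence without the first digit -/
def sh (X : ℕ → Bool) (n : ℕ) : Bool := X (n + 1)

/-- the first digit of the sequence as a number -/
def tgX (X : ℕ → Bool) : ℕ := if X 0 = true then 1 else 0

/-- the function, for tagged sequences -/
noncomputable def fl (c : Code) (X : ℕ → Bool) (g : ℕ) : Bool :=
  PI.fl c (sh X) (Nat.pair (tgX X) g)

theorem pre_cons (X : ℕ → Bool) (s : ℕ) : pre X (s + 1) = X 0 :: pre (sh X) s := by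
  refine List.ext_getElem (by simp) fun i h1 h2 => ?_
  rw [getElem_pre]
  cases i with
  | zero => simp
  | succ i =>
    rw [List.getElem_cons_succ, getElem_pre]
    rfl

theorem F_lim (c : Code) (X : ℕ → Bool) (g : ℕ) : ∃ s0, ∀ s ≥ s0, F c (pre X s) g = fl c X g := by
  obtain ⟨s0, h0⟩ := PI.F_lim c (sh X) (Nat.pair (tgX X) g)
  refine ⟨s0 + 1, fun s hs => ?_⟩
  obtain ⟨s, rfl⟩ : ∃ s', s = s' + 1 := ⟨s - 1, by omega⟩
  unfold F fl
  rw [← h0 s (by omega), pre_cons]
  rfl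

theorem pr_F {α : Type*} [Primcodable α] {c : α → Code} {σ : α → List Bool} {g : α → ℕ}
    (hc : Primrec c) (hσ : Primrec σ) (hg : Primrec g) :
    Primrec fun a => F (c a) (σ a) (g a) := by
  unfold F tg
  exact PI.pr_F hc (Primrec.list_tail.comp hσ) (Primrec₂.natPair.comp
    (Primrec.ite (Primrec.eq.comp ((Primrec.list_getD false).comp hσ (Primrec.const 0))
      (Primrec.const true)) (Primrec.const 1) (Primrec.const 0)) hg)

section
variable (P Q : List Bool → List Bool)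

/-- The decision to put `x` in at stage `t`. -/
def dc (c : Code) (S : ℕ → ℕ → List Bool) (t x : ℕ) : Prop :=
  un x.unpair.1 ≤ t ∧ x ≤ t ∧ (lm x).length ≤ t ∧ ue x.unpair.1 ≤ un x.unpair.1 ∧
  uk x.unpair.1 < ul x.unpair.1 ∧ ua x.unpair.1 ≤ 1 ∧ ub x.unpair.1 ≤ 2 ∧
  (∃ t' < t + 1, hlt t (ue x.unpair.1) x (S (uk x.unpair.1) t') = true) ∧
  (∀ i < ul x.unpair.1, ∀ t' < t + 1, x ≤ t' →
    F c (S i t') (Nat.pair x.unpair.1 i) = F c (S i t) (Nat.pair x.unpair.1 i)) ∧
  ¬ Rf P Q S t x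

/-- some decision is made at stage `t` -/
def dA (c : Code) (S : ℕ → ℕ → List Bool) (u t : ℕ) : Prop :=
  ∃ x < t + 1, x.unpair.1 = u ∧ dc P Q c S t x

/-- the first stage with a decision is `t` -/
def fs (c : Code) (S : ℕ → ℕ → List Bool) (u t : ℕ) : Prop :=
  dA P Q c S u t ∧ ∀ t' < t, ¬ dA P Q c S u t'

/-- the set of pairs which are to be avoided, for a string with tag -/
def SimT (c : Code) (σ : List Bool) (g : ℕ) (b : Bool) : Prop :=
  g.unpair.2 < ul g.unpair.1 ∧ ∃ t < σ.length + 1, Vf P Q σ g.unpair.2 (NN g.unpair.1) t ∧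
    fs P Q c (SS P Q σ g.unpair.2) g.unpair.1 t ∧ b = F c (σ.take t) g

/-- the set of pairs which are to be avoided -/
def Sim (c : Code) (σ : List Bool) (g : ℕ) (b : Bool) : Prop :=
  g.unpair.1 < 2 ∧ SimT P Q c (decide (g.unpair.1 = 1) :: σ) g.unpair.2 b

end

section
variable {P Q : List Bool → List Bool} {S S' : ℕ → ℕ → List Bool} {c : Code}

theorem dc.congr {T t x : ℕ} (h : Agr (NN x.unpair.1) T S S') (ht : t ≤ T)
    (h1 : dc P Q c S t x) : dc P Q c S' t x := by
  have hN := ul_le_NN x.unpair.1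
  obtain ⟨a1, a2, a3, a4, a5, a6, a7, ⟨t', ht', a8⟩, a9, a10⟩ := h1
  refine ⟨a1, a2, a3, a4, a5, a6, a7, ⟨t', ht', ?_⟩, fun i hi t' ht' hx => ?_, fun h2 => a10 ?_⟩
  · rw [← h _ (by omega) t' (by omega)]
    exact a8
  · rw [← h i (by omega) t' (by omega), ← h i (by omega) t (by omega)]
    exact a9 i hi t' ht' hx
  · exact h2.congr h.symm ht (by omega)

theorem dA.congr {T t u : ℕ} (h : Agr (NN u) T S S') (ht : t ≤ T)
    (h1 : dA P Q c S u t) : dA P Q c S' u t := by
  obtain ⟨x, hx, rfl, h2⟩ := h1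
  exact ⟨x, hx, rfl, h2.congr h ht⟩

theorem fs.congr {T t u : ℕ} (h : Agr (NN u) T S S') (ht : t ≤ T)
    (h1 : fs P Q c S u t) : fs P Q c S' u t :=
  ⟨h1.1.congr h ht, fun t' ht' h2 => h1.2 t' ht' (h2.congr h.symm (by omega))⟩

end

section
variable {α : Type*} [Primcodable α] {P Q : List Bool → List Bool}

theorem pr_dc (S : Sys P Q) {c : α → Code} {σ : α → List Bool} {q t x : α → ℕ} (hc : Primrec c)
    (hσ : Primrec σ) (hq : Primrec q) (ht : Primrec t) (hx : Primrec x) :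
    PrimrecPred fun a => dc P Q (c a) (SS P Q (σ a) (q a)) (t a) (x a) := by
  unfold dc
  have hu := pr_u1 hx
  have hl := pr_len (pr_lm hx)
  refine PrimrecPred.and (Primrec.nat_le.comp (pr_un hu) ht)
    (PrimrecPred.and (Primrec.nat_le.comp hx ht)
    (PrimrecPred.and (Primrec.nat_le.comp hl ht)
    (PrimrecPred.and (Primrec.nat_le.comp (pr_ue hu) (pr_un hu))
    (PrimrecPred.and (Primrec.nat_lt.comp (pr_uk hu) (pr_ul hu))
    (PrimrecPred.and (Primrec.nat_le.comp (pr_ua hu) (Primrec.const 1))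
    (PrimrecPred.and (Primrec.nat_le.comp (pr_ub hu) (Primrec.const 2))
    (PrimrecPred.and ?_ (PrimrecPred.and ?_ (PrimrecPred.not (pr_Rf S hσ hq ht hx))))))))))
  · refine PP.ex_lt (f := fun a => t a + 1) (p := fun a t' => hlt (t a) (ue (x a).unpair.1) (x a)
      (SS P Q (σ a) (q a) (uk (x a).unpair.1) t') = true) ?_ (pr_add1 ht)
    exact Primrec.eq.comp (pr_hlt (ht.comp Primrec.fst) ((pr_ue hu).comp Primrec.fst)
      (hx.comp Primrec.fst) (pr_SS S (hσ.comp Primrec.fst) (hq.comp Primrec.fst)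
      ((pr_uk hu).comp Primrec.fst) Primrec.snd)) (Primrec.const true)
  · refine PP.all_lt (f := fun a => ul (x a).unpair.1) (p := fun a i => ∀ t' < t a + 1, x a ≤ t' →
      F (c a) (SS P Q (σ a) (q a) i t') (Nat.pair (x a).unpair.1 i) =
        F (c a) (SS P Q (σ a) (q a) i (t a)) (Nat.pair (x a).unpair.1 i)) ?_ (pr_ul hu)
    refine PP.all_lt (α := α × ℕ) (f := fun y => t y.1 + 1) (p := fun y t' => x y.1 ≤ t' →
      F (c y.1) (SS P Q (σ y.1) (q y.1) y.2 t') (Nat.pair (x y.1).unpair.1 y.2) =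
        F (c y.1) (SS P Q (σ y.1) (q y.1) y.2 (t y.1)) (Nat.pair (x y.1).unpair.1 y.2)) ?_
      ((pr_add1 ht).comp Primrec.fst)
    have ff : Primrec fun z : (α × ℕ) × ℕ => z.1.1 := Primrec.fst.comp Primrec.fst
    have fs : Primrec fun z : (α × ℕ) × ℕ => z.1.2 := Primrec.snd.comp Primrec.fst
    have hg : Primrec fun z : (α × ℕ) × ℕ => Nat.pair (x z.1.1).unpair.1 z.1.2 :=
      Primrec₂.natPair.comp (hu.comp ff) fs
    exact pr_imp (Primrec.nat_le.comp (hx.comp ff) Primrec.snd)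
      (Primrec.eq.comp (pr_F (hc.comp ff) (pr_SS S (hσ.comp ff) (hq.comp ff) fs Primrec.snd) hg)
        (pr_F (hc.comp ff) (pr_SS S (hσ.comp ff) (hq.comp ff) fs (ht.comp ff)) hg))

theorem pr_dA (S : Sys P Q) {c : α → Code} {σ : α → List Bool} {q u t : α → ℕ} (hc : Primrec c)
    (hσ : Primrec σ) (hq : Primrec q) (hu : Primrec u) (ht : Primrec t) :
    PrimrecPred fun a => dA P Q (c a) (SS P Q (σ a) (q a)) (u a) (t a) := by
  unfold dA
  refine PP.ex_lt (f := fun a => t a + 1) (p := fun a x => x.unpair.1 = u a ∧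
    dc P Q (c a) (SS P Q (σ a) (q a)) (t a) x) ?_ (pr_add1 ht)
  exact PrimrecPred.and (Primrec.eq.comp (pr_u1 Primrec.snd) (hu.comp Primrec.fst))
    (pr_dc S (hc.comp Primrec.fst) (hσ.comp Primrec.fst) (hq.comp Primrec.fst)
      (ht.comp Primrec.fst) Primrec.snd)

theorem pr_fs (S : Sys P Q) {c : α → Code} {σ : α → List Bool} {q u t : α → ℕ} (hc : Primrec c)
    (hσ : Primrec σ) (hq : Primrec q) (hu : Primrec u) (ht : Primrec t) :
    PrimrecPred fun a => fs P Q (c a) (SS P Q (σ a) (q a)) (u a) (t a) := by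
  unfold fs
  refine PrimrecPred.and (pr_dA S hc hσ hq hu ht) ?_
  refine PP.all_lt (f := fun a => t a) (p := fun a t' =>
    ¬ dA P Q (c a) (SS P Q (σ a) (q a)) (u a) t') ?_ ht
  exact PrimrecPred.not (pr_dA S (hc.comp Primrec.fst) (hσ.comp Primrec.fst)
    (hq.comp Primrec.fst) (hu.comp Primrec.fst) Primrec.snd)

theorem pr_SimT (S : Sys P Q) {c : α → Code} {σ : α → List Bool} {g : α → ℕ} {b : α → Bool}
    (hc : Primrec c) (hσ : Primrec σ) (hg : Primrec g) (hb : Primrec b) :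
    PrimrecPred fun a => SimT P Q (c a) (σ a) (g a) (b a) := by
  unfold SimT
  refine PrimrecPred.and (Primrec.nat_lt.comp (pr_u2 hg) (pr_ul (pr_u1 hg))) ?_
  refine PP.ex_lt (f := fun a => (σ a).length + 1) (p := fun a t =>
    Vf P Q (σ a) (g a).unpair.2 (NN (g a).unpair.1) t ∧
    fs P Q (c a) (SS P Q (σ a) (g a).unpair.2) (g a).unpair.1 t ∧
    b a = F (c a) ((σ a).take t) (g a)) ?_ (pr_add1 (pr_len hσ))
  have hg' := hg.comp (Primrec.fst : Primrec (Prod.fst : α × ℕ → α))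
  exact PrimrecPred.and
    (pr_Vf S (hσ.comp Primrec.fst) (pr_u2 hg') (pr_NN (pr_u1 hg')) Primrec.snd)
    (PrimrecPred.and (pr_fs S (hc.comp Primrec.fst) (hσ.comp Primrec.fst) (pr_u2 hg')
      (pr_u1 hg') Primrec.snd)
    (Primrec.eq.comp (hb.comp Primrec.fst) (pr_F (hc.comp Primrec.fst)
      (Primrec.list_take.comp Primrec.snd (hσ.comp Primrec.fst)) hg')))

theorem pr_Sim (S : Sys P Q) {c : α → Code} {σ : α → List Bool} {g : α → ℕ} {b : α → Bool}
    (hc : Primrec c) (hσ : Primrec σ) (hg : Primrec g) (hb : Primrec b) :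
    PrimrecPred fun a => Sim P Q (c a) (σ a) (g a) (b a) := by
  unfold Sim
  refine PrimrecPred.and (Primrec.nat_lt.comp (pr_u1 hg) (Primrec.const 2))
    (pr_SimT S hc (Primrec.list_cons.comp ?_ hσ) (pr_u2 hg) hb)
  exact PrimrecPred.decide (Primrec.eq.comp (pr_u1 hg) (Primrec.const 1))

/-- the fixed point -/
theorem exists_fix (S : Sys P Q) : ∃ c : Code, ∀ (g : ℕ) (b : Bool) (σ : List Bool),
    (c.eval (encode ((g, b), σ))).Dom ↔ Sim P Q c σ g b := by
  classical
  have h1 : Primrec fun y : Code × ℕ => (decode y.2 : Option ((ℕ × Bool) × List Bool)).getD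
      ((0, false), []) :=
    Primrec.option_getD.comp (Primrec.decode.comp Primrec.snd) (Primrec.const _)
  have h2 : PrimrecPred fun y : Code × ℕ => Sim P Q y.1
      ((decode y.2 : Option ((ℕ × Bool) × List Bool)).getD ((0, false), [])).2
      ((decode y.2 : Option ((ℕ × Bool) × List Bool)).getD ((0, false), [])).1.1
      ((decode y.2 : Option ((ℕ × Bool) × List Bool)).getD ((0, false), [])).1.2 :=
    pr_Sim S Primrec.fst (Primrec.snd.comp h1) (Primrec.fst.comp (Primrec.fst.comp h1))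
      (Primrec.snd.comp (Primrec.fst.comp h1))
  obtain ⟨c, hc⟩ := Nat.Partrec.Code.fixed_point₂ (f := fun (c : Code) (m : ℕ) =>
    Nat.rfind fun _ => Part.some (decide (Sim P Q c
      ((decode m : Option ((ℕ × Bool) × List Bool)).getD ((0, false), [])).2
      ((decode m : Option ((ℕ × Bool) × List Bool)).getD ((0, false), [])).1.1
      ((decode m : Option ((ℕ × Bool) × List Bool)).getD ((0, false), [])).1.2))) (by
    refine Partrec.rfind (α := Code × ℕ) (p := fun y _ => Part.some (decide (Sim P Q y.1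
      ((decode y.2 : Option ((ℕ × Bool) × List Bool)).getD ((0, false), [])).2
      ((decode y.2 : Option ((ℕ × Bool) × List Bool)).getD ((0, false), [])).1.1
      ((decode y.2 : Option ((ℕ × Bool) × List Bool)).getD ((0, false), [])).1.2))) ?_
    exact ((PrimrecPred.decide h2).comp Primrec.fst).to_comp.partrec)
  refine ⟨c, fun g b σ => ?_⟩
  rw [hc, Nat.rfind_dom]
  simp

theorem SimT_coh (S : Sys P Q) {c : Code} {X : ℕ → Bool} {g s s' : ℕ} {b b' : Bool} (hs : s ≤ s')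
    (h : SimT P Q c (pre X s) g b) (h' : SimT P Q c (pre X s') g b') : b = b' := by
  obtain ⟨_, t, ht, h2, h3, h4⟩ := h
  obtain ⟨_, t', ht', h2', h3', h4'⟩ := h'
  rw [length_pre] at ht ht'
  have hag : ∀ T, T ≤ t → Agr (NN g.unpair.1) T (SS P Q (pre X s) g.unpair.2)
      (SS P Q (pre X s') g.unpair.2) := fun T hT i hi t'' ht'' =>
    Vf_coh S hs h2 hi (ht''.trans hT)
  have htt : t = t' := by
    rcases lt_trichotomy t t' with h5 | h5 | h5
    · exact absurd (h3.1.congr (hag t le_rfl) le_rfl) (h3'.2 t h5)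
    · exact h5
    · exact absurd (h3'.1.congr (hag t' h5.le).symm le_rfl) (h3.2 t' h5)
  subst htt
  rw [h4, h4', take_pre _ _ _ (by omega), take_pre _ _ _ (by omega)]

theorem cons_pre (b : Bool) (X : ℕ → Bool) (s : ℕ) :
    b :: pre X s = pre (fun n => if n = 0 then b else X (n - 1)) (s + 1) := by
  rw [pre_cons]
  rfl

theorem Sim_coh (S : Sys P Q) {c : Code} {X : ℕ → Bool} {g s s' : ℕ} {b b' : Bool} (hs : s ≤ s')
    (h : Sim P Q c (pre X s) g b) (h' : Sim P Q c (pre X s') g b') : b = b' := by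
  obtain ⟨_, h⟩ := h
  obtain ⟨_, h'⟩ := h'
  rw [cons_pre] at h h'
  exact SimT_coh S (by omega) h h'

theorem Sim_of_hav {c : Code} (hc : ∀ (g : ℕ) (b : Bool) (σ : List Bool),
    (c.eval (encode ((g, b), σ))).Dom ↔ Sim P Q c σ g b) {X : ℕ → Bool} {g s : ℕ} {b : Bool}
    (h : hav c (pre X s) g b) : ∃ t, Sim P Q c (pre X t) g b := by
  obtain ⟨t, ht, h1⟩ := h
  rw [length_pre] at ht h1
  rw [take_pre _ _ _ (by omega)] at h1
  rw [Option.isSome_iff_exists] at h1
  obtain ⟨y, hy⟩ := h1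
  refine ⟨t, (hc _ _ _).1 ?_⟩
  exact (Part.dom_iff_mem).2 ⟨y, Nat.Partrec.Code.evaln_sound hy⟩

theorem hav_of_Sim {c : Code} (hc : ∀ (g : ℕ) (b : Bool) (σ : List Bool),
    (c.eval (encode ((g, b), σ))).Dom ↔ Sim P Q c σ g b) {X : ℕ → Bool} {g t : ℕ} {b : Bool}
    (h : Sim P Q c (pre X t) g b) : ∃ s, hav c (pre X s) g b := by
  have h1 := (hc _ _ _).2 h
  obtain ⟨y, hy⟩ := Part.dom_iff_mem.1 h1
  obtain ⟨k, hk⟩ := Nat.Partrec.Code.evaln_complete.1 hy
  refine ⟨max k t, t, ?_, ?_⟩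
  · rw [length_pre]
    exact Nat.lt_succ_of_le (le_max_right _ _)
  · rw [length_pre, take_pre _ _ _ (le_max_right _ _), Option.isSome_iff_exists]
    exact ⟨y, Nat.Partrec.Code.evaln_mono (le_max_left _ _) hk⟩

theorem hsv_of_fix (S : Sys P Q) {c : Code} (hc : ∀ (g : ℕ) (b : Bool) (σ : List Bool),
    (c.eval (encode ((g, b), σ))).Dom ↔ Sim P Q c σ g b) (X : ℕ → Bool) (g s s' : ℕ) (b b' : Bool)
    (h : hav c (pre X s) g b) (h' : hav c (pre X s') g b') : b = b' := by
  obtain ⟨t, h1⟩ := Sim_of_hav hc h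
  obtain ⟨t', h1'⟩ := Sim_of_hav hc h'
  rcases le_total t t' with h2 | h2
  · exact Sim_coh S h2 h1 h1'
  · exact (Sim_coh S h2 h1' h1).symm

end

end Pool.Agent.Run7.h353.PJ
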