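import Pool.Agent.Run7.h353.PJ.B5

set_option autoImplicit false

/-!
The set is not computable from the oracle.
-/

namespace Pool.Agent.Run7.h353.PJ

open Encodable Pool.Agent.Helper227 Pool.Agent.H548R2.Post Pool.Agent.Run7.h353.PI
open Nat.Partrec (Code)

theorem exists_F_lim (c : Code) (Y : ℕ → ℕ → Bool) (u n : ℕ) :
    ∃ T, ∀ i < n, ∀ t ≥ T, F c (pre (Y i) t) (Nat.pair u i) = fl c (Y i) (Nat.pair u i) := by
  induction n with
  | zero => exact ⟨0, fun i hi => absurd hi (Nat.not_lt_zero _)⟩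
  | succ n ih =>
    obtain ⟨T, hT⟩ := ih
    obtain ⟨T', hT'⟩ := F_lim c (Y n) (Nat.pair u n)
    refine ⟨max T T', fun i hi t ht => ?_⟩
    rcases Nat.lt_succ_iff_lt_or_eq.1 hi with h2 | rfl
    · exact hT i h2 t (le_trans (le_max_left _ _) ht)
    · exact hT' t (le_trans (le_max_right _ _) ht)

section
variable {P Q : List Bool → List Bool} {I : Set ℤ} {Z : ℤ → ℕ → Bool} {c : Code}

theorem pos (S : Sys P Q) (O : Orb P Q I Z) {k : ℤ} (hk : k ∈ I) {u : ℕ}
    (G : Gd P Q I Z k u) : ¬ ∀ x, x ∈ WE (Z k) (ue u) ↔ ¬ AX P Q c (Z k) x := by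
  intro hW
  obtain ⟨L, hL⟩ := O.Vf_sound S
  have ek : k - (uk u : ℤ) + uk u = k := by ring
  -- no decision is made
  have step1 : ∀ t, ¬ fs P Q c (SR Z (k - uk u)) u t := by
    intro t h
    obtain ⟨x, hx, rfl, h1⟩ := h.1
    have h2 : AX P Q c (Z k) x := by
      obtain ⟨s, hs⟩ := Aq_of (c := c) S O hk G.q ⟨G.inl, G.inr⟩ ⟨t, h, h1⟩ G.mkr
      exact ⟨s, _, G.q, hs⟩
    obtain ⟨t', ht', h3⟩ := h1.2.2.2.2.2.2.2.1
    unfold SR at h3
    rw [ek] at h3
    exact (hW x).1 ((mem_WE_iff _ _ _).2 ⟨t, t', by omega, h3⟩) h2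
  obtain ⟨H1, hH1⟩ := exists_sep (fun i => Z (k - uk u + i)) (Z (k - uk u)) (ul u)
  obtain ⟨H2, hH2⟩ := exists_sep (fun q' => Z (k - q')) (Z (k - uk u)) (ul u)
  obtain ⟨T, hT⟩ := exists_F_lim c (fun i => Z (k - uk u + i)) u (ul u)
  obtain ⟨h, hh⟩ : ∃ h, h = max (max H1 H2) (max T (L + 1)) := ⟨_, rfl⟩
  have b1 : H1 ≤ h := by omega
  have b2 : H2 ≤ h := by omega
  have b3 : T ≤ h := by omega
  have b4 : L + 1 ≤ h := by omega
  obtain ⟨x, hx⟩ : ∃ x, x = Nat.pair u (encode (pre (Z (k - uk u)) h)) := ⟨_, rfl⟩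
  have xu : x.unpair.1 = u := by rw [hx, Nat.unpair_pair]
  have xl : lm x = pre (Z (k - uk u)) h := by
    rw [lm, hx, Nat.unpair_pair, str_encode]
  have hhx : h ≤ x := by
    have h1 := Encodable.length_le_encode (pre (Z (k - uk u)) h)
    rw [length_pre] at h1
    exact h1.trans (hx ▸ Nat.right_le_pair _ _)
  have hnot : ¬ AX P Q c (Z k) x := by
    intro hA
    rw [AX_iff S O hL hk (by omega)] at hA
    obtain ⟨q', hq', h1, ⟨t, h2, h3⟩, _⟩ := hA
    rw [xu] at hq' h2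
    by_cases hqq : q' = uk u
    · subst hqq
      exact step1 t h2
    · have h4 := G.d2 q' hq' hqq h1.1
      have h5 := h3.2.2.2.2.2.2.2.2.2
      have h6 : (lm x).length ≤ t := h3.2.2.1
      apply h5
      left
      refine ⟨h6, ?_⟩
      rw [xl, length_pre]
      unfold SR
      have := hH2 h b2 q' hq' h4
      simpa using this
  have hWx := (hW x).2 hnot
  obtain ⟨s0, t0, ht0, h0⟩ := (mem_WE_iff _ _ _).1 hWx
  obtain ⟨t, ht⟩ : ∃ t, t = max (max (un u) x) s0 := ⟨_, rfl⟩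
  have d : dc P Q c (SR Z (k - uk u)) t x := by
    unfold dc
    rw [xu]
    refine ⟨by omega, by omega, ?_, G.e, G.q, G.a, G.b, ⟨t0, by omega, ?_⟩, ?_, ?_⟩
    · rw [xl, length_pre]
      omega
    · unfold SR
      rw [ek]
      exact hlt_mono (by omega) h0
    · intro i hi t' ht' hxt'
      unfold SR
      rw [hT i hi t' (by omega), hT i hi t (by omega)]
    · intro hR
      unfold Rf at hR
      rw [xu] at hR
      rcases hR with ⟨a, b⟩ | ⟨i, hi, a, b, d⟩ | h1 | h1 | h1 | h1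
      · apply b
        rw [xl, length_pre]
        unfold SR
        simp
      · rw [xl, length_pre] at d
        exact hH1 h b1 i hi (G.d1 i hi a) d
      · exact G.r1 t h1
      · exact G.r2 t h1
      · exact G.r3 t h1
      · exact G.r4 t h1
  have hd : ∃ t, dA P Q c (SR Z (k - uk u)) u t := ⟨t, x, by omega, xu, d⟩
  classical
  exact step1 (Nat.find hd) ⟨Nat.find_spec hd, fun t' ht' => Nat.find_min hd ht'⟩

end

end Pool.Agent.Run7.h353.PJ
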