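import Pool.Agent.Run7.h353.PJ.B6

set_option autoImplicit false

/-!
Refutation of lists.
-/

namespace Pool.Agent.Run7.h353.PJ

open Encodable Pool.Agent.Helper227 Pool.Agent.H548R2.Post Pool.Agent.Run7.h353.PI
open Nat.Partrec (Code)

section
variable {P Q : List Bool → List Bool} {I : Set ℤ} {Z : ℤ → ℕ → Bool} {c : Code}

theorem sep (P Q : List Bool → List Bool) (c : Code) {m m' : ℤ} {x : ℕ}
    (h : RR P Q c Z m x) (h' : RR P Q c Z m' x)
    (h1 : m < m') (h2 : m' < m + ul x.unpair.1) : False := by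
  obtain ⟨t, _, h3⟩ := h
  obtain ⟨t', _, h3'⟩ := h'
  have h4 : (lm x).length ≤ t := h3.2.2.1
  have h4' : (lm x).length ≤ t' := h3'.2.2.1
  have h5 := h3.2.2.2.2.2.2.2.2.2
  have h5' := h3'.2.2.2.2.2.2.2.2.2
  have h6 : SR Z m' 0 (lm x).length = lm x := by
    by_contra h6
    exact h5' (Or.inl ⟨h4', h6⟩)
  refine h5 (Or.inr (Or.inl ⟨(m' - m).toNat, by omega, by omega, h4, ?_⟩))
  unfold SR at h6 ⊢
  rw [show m + (((m' - m).toNat : ℕ) : ℤ) = m' + ((0 : ℕ) : ℤ) by omega]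
  exact h6

theorem not_RR_of_Rf (S : Sys P Q) {m : ℤ} {x t : ℕ} (h : Rf P Q (SR Z m) t x)
    (h1 : ∀ t' ≤ t, ¬ (fs P Q c (SR Z m) x.unpair.1 t' ∧ dc P Q c (SR Z m) t' x)) :
    ¬ RR P Q c Z m x := by
  rintro ⟨t', h2, h3⟩
  rcases le_total t' t with h4 | h4
  · exact h1 t' h4 ⟨h2, h3⟩
  · exact h3.2.2.2.2.2.2.2.2.2 (Rf_mono S h4 h)

/-- The lists of one kind put in only finitely many numbers. -/
theorem finite_RR (P Q : List Bool → List Bool) (c : Code) (Z : ℤ → ℕ → Bool) (mf : ℕ → ℤ)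
    (B : ℕ) : ∃ M, ∀ x, x.unpair.1 < B → RR P Q c Z (mf x.unpair.1) x → x ≤ M := by
  induction B with
  | zero => exact ⟨0, fun x hx => absurd hx (Nat.not_lt_zero _)⟩
  | succ B ih =>
    obtain ⟨M, hM⟩ := ih
    have h1 : ∃ M', ∀ x, x.unpair.1 = B → RR P Q c Z (mf x.unpair.1) x → x ≤ M' := by
      by_cases h : ∃ t, fs P Q c (SR Z (mf B)) B t
      · obtain ⟨t, ht⟩ := h
        refine ⟨t, fun x hx hR => ?_⟩
        obtain ⟨t', h2, h3⟩ := hR
        rw [hx] at h2 h3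
        have h4 : t' = t := by
          rcases lt_trichotomy t' t with h5 | h5 | h5
          · exact absurd h2.1 (ht.2 t' h5)
          · exact h5
          · exact absurd ht.1 (h2.2 t h5)
        rw [← h4]
        exact h3.2.1
      · refine ⟨0, fun x hx hR => ?_⟩
        obtain ⟨t', h2, _⟩ := hR
        rw [hx] at h2
        exact absurd ⟨t', h2⟩ h
    obtain ⟨M', hM'⟩ := h1
    refine ⟨max M M', fun x hx hR => ?_⟩
    rcases Nat.lt_succ_iff_lt_or_eq.1 hx with h2 | h2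
    · exact (hM x h2 hR).trans (le_max_left _ _)
    · exact (hM' x h2 hR).trans (le_max_right _ _)

end

end Pool.Agent.Run7.h353.PJ
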