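import Pool.Agent.Run7.h353.PJ.B7

set_option autoImplicit false

/-!
The complement of the set.
-/

namespace Pool.Agent.Run7.h353.PJ

open Encodable Pool.Agent.Helper227 Pool.Agent.H548R2.Post Pool.Agent.Run7.h353.PI
open Nat.Partrec (Code)

/-- nothing is put in by the list up to the stage `t` -/
def NS (P Q : List Bool → List Bool) (c : Code) (σ : List Bool) (q x t : ℕ) : Prop :=
  Vf P Q σ q (NN x.unpair.1) t ∧ ∀ t' < t + 1,
    ¬ (fs P Q c (SS P Q σ q) x.unpair.1 t' ∧ dc P Q c (SS P Q σ q) t' x)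

/-- `x` is put in for the list starting at `m` -/
def RC (P Q : List Bool → List Bool) (c : Code) (Z : ℤ → ℕ → Bool) (I : Set ℤ) (m : ℤ) (x : ℕ) :
    Prop := IN I m x ∧ RR P Q c Z m x ∧ MK Z I m x

section
variable {α : Type*} [Primcodable α] {P Q : List Bool → List Bool} {I : Set ℤ}
  {Z : ℤ → ℕ → Bool} {c : Code}

theorem pr_NS (S : Sys P Q) {c : α → Code} {σ : α → List Bool} {q x t : α → ℕ} (hc : Primrec c)
    (hσ : Primrec σ) (hq : Primrec q) (hx : Primrec x) (ht : Primrec t) :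
    PrimrecPred fun a => NS P Q (c a) (σ a) (q a) (x a) (t a) := by
  unfold NS
  refine PrimrecPred.and (pr_Vf S hσ hq (pr_NN (pr_u1 hx)) ht) ?_
  refine PP.all_lt (f := fun a => t a + 1) (p := fun a t' =>
    ¬ (fs P Q (c a) (SS P Q (σ a) (q a)) (x a).unpair.1 t' ∧
      dc P Q (c a) (SS P Q (σ a) (q a)) t' (x a))) ?_ (pr_add1 ht)
  exact PrimrecPred.not (PrimrecPred.and
    (pr_fs S (hc.comp Primrec.fst) (hσ.comp Primrec.fst) (hq.comp Primrec.fst)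
      ((pr_u1 hx).comp Primrec.fst) Primrec.snd)
    (pr_dc S (hc.comp Primrec.fst) (hσ.comp Primrec.fst) (hq.comp Primrec.fst) Primrec.snd
      (hx.comp Primrec.fst)))

theorem VL_of_RR {m : ℤ} {x : ℕ} (h : RR P Q c Z m x) : VL x.unpair.1 := by
  obtain ⟨t, _, h⟩ := h
  exact ⟨h.2.2.2.1, h.2.2.2.2.1, h.2.2.2.2.2.1, h.2.2.2.2.2.2.1⟩

theorem NS_iff (S : Sys P Q) (O : Orb P Q I Z) {k : ℤ} (hk : k ∈ I) {q x s t : ℕ}
    (h1 : IN I (k - q) x) (h : Vf P Q (pre (Z k) s) q (NN x.unpair.1) t) :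
    NS P Q c (pre (Z k) s) q x t ↔
      ∀ t' ≤ t, ¬ (fs P Q c (SR Z (k - q)) x.unpair.1 t' ∧ dc P Q c (SR Z (k - q)) t' x) := by
  have h2 := O.agr S hk h1.1 h1.2 h
  constructor
  · rintro ⟨_, h3⟩ t' ht' ⟨h4, h5⟩
    exact h3 t' (by omega) ⟨h4.congr h2.symm ht', h5.congr h2.symm ht'⟩
  · intro h3
    refine ⟨h, fun t' ht' h4 => h3 t' (by omega) ⟨h4.1.congr h2 (by omega), h4.2.congr h2 (by omega)⟩⟩

/-- The refutations. -/
theorem exists_R2 (S : Sys P Q) (O : Orb P Q I Z) {k : ℤ} (hk : k ∈ I) (c : Code) :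
    ∃ R : ℕ × ℕ → Prop, SI (Z k) R ∧ (∀ q x, R (q, x) → ¬ RC P Q c Z I (k - q) x) ∧
      ∀ q x, q < ul x.unpair.1 →
        (VL x.unpair.1 → IN I (k - q) x → MK Z I (k - q) x → ∃ t, Rf P Q (SR Z (k - q)) t x) →
        ¬ RC P Q c Z I (k - q) x → R (q, x) := by
  refine ⟨fun y => ¬ VL y.2.unpair.1 ∨ ¬ IN I (k - (y.1 : ℤ)) y.2 ∨ ¬ MK Z I (k - (y.1 : ℤ)) y.2 ∨
    ∃ st : ℕ × ℕ, Rf P Q (SS P Q (pre (Z k) st.1) y.1) st.2 y.2 ∧
      NS P Q c (pre (Z k) st.1) y.1 y.2 st.2, ?_, ?_, ?_⟩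
  · refine SI.or (SI.of_prim (PrimrecPred.not (pr_VL (pr_u1 Primrec.snd))))
      (SI.or (si_nIN O hk _ Primrec.fst Primrec.snd)
      (SI.or (si_nMK S O hk Primrec.fst Primrec.snd) (SI.ex (p := fun (y : ℕ × ℕ) (st : ℕ × ℕ) =>
        Rf P Q (SS P Q (pre (Z k) st.1) y.1) st.2 y.2 ∧
        NS P Q c (pre (Z k) st.1) y.1 y.2 st.2) ?_)))
    refine si_pre (Z k) (β := (ℕ × ℕ) × (ℕ × ℕ)) (p := fun z σ =>
      Rf P Q (SS P Q σ z.1.1) z.2.2 z.1.2 ∧ NS P Q c σ z.1.1 z.1.2 z.2.2) ?_ Primrec.id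
      (Primrec.fst.comp Primrec.snd)
    have hq : Primrec fun z : ((ℕ × ℕ) × (ℕ × ℕ)) × List Bool => z.1.1.1 :=
      Primrec.fst.comp (Primrec.fst.comp Primrec.fst)
    have hx : Primrec fun z : ((ℕ × ℕ) × (ℕ × ℕ)) × List Bool => z.1.1.2 :=
      Primrec.snd.comp (Primrec.fst.comp Primrec.fst)
    have ht : Primrec fun z : ((ℕ × ℕ) × (ℕ × ℕ)) × List Bool => z.1.2.2 :=
      Primrec.snd.comp (Primrec.snd.comp Primrec.fst)
    exact PrimrecPred.and (pr_Rf S Primrec.snd hq ht hx)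
        (pr_NS S (Primrec.const c) Primrec.snd hq hx ht)
  · rintro q x (h | h | h | ⟨⟨s, t⟩, h2, h3⟩) ⟨hIN, hRR, hMK⟩
    · exact h (VL_of_RR hRR)
    · exact h hIN
    · exact h hMK
    · simp only at h2 h3
      have h4 := O.agr S hk hIN.1 hIN.2 h3.1
      have h5 := (NS_iff S O hk hIN h3.1).1 h3
      have h6 : 0 < ul x.unpair.1 := lt_of_le_of_lt (Nat.zero_le _) (VL_of_RR hRR).2.1
      exact not_RR_of_Rf S (h2.congr h4 le_rfl h6) h5 hRR
  · intro q x hq hRf hRC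
    by_cases h1 : VL x.unpair.1
    · by_cases h2 : IN I (k - q) x
      · by_cases h3 : MK Z I (k - q) x
        · obtain ⟨t, ht⟩ := hRf h1 h2 h3
          have h4 : ¬ RR P Q c Z (k - q) x := fun h => hRC ⟨h2, h, h3⟩
          obtain ⟨s0, hs0⟩ := O.Vf_complete S hk (lt_of_lt_of_le hq (ul_le_NN _)) h2.1 h2.2 t
          have h5 := hs0 s0 le_rfl
          have h6 := O.agr S hk h2.1 h2.2 h5
          refine Or.inr (Or.inr (Or.inr ⟨(s0, t), ?_, ?_⟩))
          · exact ht.congr h6.symm le_rfl (lt_of_le_of_lt (Nat.zero_le _) hq)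
          · exact (NS_iff S O hk h2 h5).2 fun t' _ h7 => h4 ⟨t', h7.1, h7.2⟩
        · exact Or.inr (Or.inr (Or.inl h3))
      · exact Or.inr (Or.inl h2)
    · exact Or.inl h1

end

open Classical in
/-- the characteristic function of the set -/
noncomputable def Ac (P Q : List Bool → List Bool) (c : Code) (X : ℕ → Bool) (x : ℕ) : Bool :=
  decide (AX P Q c X x)

theorem Ac_true {P Q : List Bool → List Bool} {c : Code} {X : ℕ → Bool} {x : ℕ} :
    Ac P Q c X x = true ↔ AX P Q c X x := by simp [Ac]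

section
variable {α : Type*} [Primcodable α] {P Q : List Bool → List Bool} {I : Set ℤ}
  {Z : ℤ → ℕ → Bool} {c : Code}

theorem pr_RS (S : Sys P Q) {σ : α → List Bool} {q x : α → ℕ} (c : Code)
    (hσ : Primrec σ) (hq : Primrec q) (hx : Primrec x) :
    PrimrecPred fun a => RS P Q c (σ a) (q a) (x a) := by
  unfold RS
  refine PP.ex_lt (f := fun a => (σ a).length + 1) (p := fun a t =>
    Vf P Q (σ a) (q a) (NN (x a).unpair.1) t ∧ fs P Q c (SS P Q (σ a) (q a)) (x a).unpair.1 t ∧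
      dc P Q c (SS P Q (σ a) (q a)) t (x a)) ?_ (pr_add1 (pr_len hσ))
  have hσ' := hσ.comp (Primrec.fst : Primrec (Prod.fst : α × ℕ → α))
  have hq' := hq.comp (Primrec.fst : Primrec (Prod.fst : α × ℕ → α))
  have hx' := hx.comp (Primrec.fst : Primrec (Prod.fst : α × ℕ → α))
  exact PrimrecPred.and (pr_Vf S hσ' hq' (pr_NN (pr_u1 hx')) Primrec.snd)
    (PrimrecPred.and (pr_fs S (Primrec.const c) hσ' hq' (pr_u1 hx') Primrec.snd)
      (pr_dc S (Primrec.const c) hσ' hq' Primrec.snd hx'))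

theorem pr_Aq (S : Sys P Q) {σ : α → List Bool} {q x : α → ℕ} (c : Code)
    (hσ : Primrec σ) (hq : Primrec q) (hx : Primrec x) :
    PrimrecPred fun a => Aq P Q c (σ a) (q a) (x a) := by
  unfold Aq
  have hu := pr_u1 hx
  exact PrimrecPred.and (pr_RS S c hσ hq hx)
    (pr_imp (Primrec.nat_lt.comp (pr_ub hu) (Primrec.const 2)) (PrimrecPred.and
      (pr_imp (Primrec.eq.comp (pr_ua hu) (Primrec.const 0))
        (pr_crt S hσ hq (Primrec.const 0) (pr_un hu) hx))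
      (pr_imp (Primrec.eq.comp (pr_ub hu) (Primrec.const 0))
        (pr_crt S hσ hq (Primrec.nat_sub.comp (pr_ul hu) (Primrec.const 1)) (pr_un hu) hx))))

theorem pr_AS (S : Sys P Q) {σ : α → List Bool} {x : α → ℕ} (c : Code)
    (hσ : Primrec σ) (hx : Primrec x) : PrimrecPred fun a => AS P Q c (σ a) (x a) := by
  unfold AS
  exact PP.ex_lt (f := fun a => ul (x a).unpair.1) (p := fun a q => Aq P Q c (σ a) q (x a))
    (pr_Aq S c (hσ.comp Primrec.fst) Primrec.snd (hx.comp Primrec.fst)) (pr_ul (pr_u1 hx))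

theorem si_AX (S : Sys P Q) (c : Code) (X : ℕ → Bool) : SI X fun x : ℕ => AX P Q c X x := by
  unfold AX
  refine SI.ex (p := fun (x : ℕ) (s : ℕ) => AS P Q c (pre X s) x) ?_
  exact si_pre X (p := fun (x : ℕ) σ => AS P Q c σ x) (pr_AS S c Primrec.snd Primrec.fst)
    Primrec.fst Primrec.snd

theorem si_Aq (S : Sys P Q) (c : Code) (X : ℕ → Bool) {q x : α → ℕ} (hq : Primrec q)
    (hx : Primrec x) : SI X fun a => ∃ s, Aq P Q c (pre X s) (q a) (x a) := by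
  refine SI.ex (p := fun (a : α) (s : ℕ) => Aq P Q c (pre X s) (q a) (x a)) ?_
  exact si_pre X (p := fun (a : α) σ => Aq P Q c σ (q a) (x a))
    (pr_Aq S c Primrec.snd (hq.comp Primrec.fst) (hx.comp Primrec.fst)) Primrec.fst Primrec.snd

theorem AX_iff_RC (S : Sys P Q) (O : Orb P Q I Z) {L : ℕ} (hL : ∀ k ∈ I, ∀ t > L, ∀ s q N,
    Vf P Q (pre (Z k) s) q N t → k - q ∈ I ∧ k - q + N - 1 ∈ I) {k : ℤ} (hk : k ∈ I) {x : ℕ}
    (hx : L < x) : AX P Q c (Z k) x ↔ ∃ q < ul x.unpair.1, RC P Q c Z I (k - q) x :=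
  AX_iff S O hL hk hx

/-- The set is computable from `X` and the avoiding function. -/
theorem Ac_le (S : Sys P Q) (hc : ∀ (g : ℕ) (b : Bool) (σ : List Bool),
    (c.eval (encode ((g, b), σ))).Dom ↔ Sim P Q c σ g b) (X : ℕ → Bool) :
    TLe (Ac P Q c X) (join X (fl c X)) := by
  obtain ⟨I, Z, O, hk, rfl⟩ := exists_orb P Q X
  obtain ⟨L, hL⟩ := O.Vf_sound S
  have hXB := tLe_join_left (Z 0) (fl c (Z 0))
  refine tLe_of_both ?_ ?_
  · exact ((si_AX S c (Z 0)).trans hXB).of_eq fun x => Ac_true.symm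
  · have h1 : SI (join (Z 0) (fl c (Z 0))) fun y : ℕ × ℕ => ¬ IN I (0 - (y.2 : ℤ)) y.1 :=
      (si_nIN O hk _ Primrec.snd Primrec.fst)
    have h2 : SI (join (Z 0) (fl c (Z 0))) fun y : ℕ × ℕ => ¬ MK Z I (0 - (y.2 : ℤ)) y.1 :=
      (si_nMK S O hk Primrec.snd Primrec.fst).trans hXB
    have h3 : SI (join (Z 0) (fl c (Z 0))) fun y : ℕ × ℕ => ∃ z : (ℕ × ℕ) × Bool,
        (y.1 ≤ z.1.2 ∧ L < z.1.2) ∧ F c (pre (Z 0) z.1.2) (Nat.pair y.1.unpair.1 y.2) = z.2 ∧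
        fl c (Z 0) (Nat.pair y.1.unpair.1 y.2) = z.2 ∧ NS P Q c (pre (Z 0) z.1.1) y.2 y.1 z.1.2 := by
      refine SI.ex (p := fun (y : ℕ × ℕ) (z : (ℕ × ℕ) × Bool) =>
        (y.1 ≤ z.1.2 ∧ L < z.1.2) ∧ F c (pre (Z 0) z.1.2) (Nat.pair y.1.unpair.1 y.2) = z.2 ∧
        fl c (Z 0) (Nat.pair y.1.unpair.1 y.2) = z.2 ∧
        NS P Q c (pre (Z 0) z.1.1) y.2 y.1 z.1.2) ?_
      have gx : Primrec fun w : (ℕ × ℕ) × ((ℕ × ℕ) × Bool) => w.1.1 :=
        Primrec.fst.comp Primrec.fst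
      have gq : Primrec fun w : (ℕ × ℕ) × ((ℕ × ℕ) × Bool) => w.1.2 :=
        Primrec.snd.comp Primrec.fst
      have gs : Primrec fun w : (ℕ × ℕ) × ((ℕ × ℕ) × Bool) => w.2.1.1 :=
        Primrec.fst.comp (Primrec.fst.comp Primrec.snd)
      have gt : Primrec fun w : (ℕ × ℕ) × ((ℕ × ℕ) × Bool) => w.2.1.2 :=
        Primrec.snd.comp (Primrec.fst.comp Primrec.snd)
      have gb : Primrec fun w : (ℕ × ℕ) × ((ℕ × ℕ) × Bool) => w.2.2 :=
        Primrec.snd.comp Primrec.snd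
      have gg : Primrec fun w : (ℕ × ℕ) × ((ℕ × ℕ) × Bool) => Nat.pair w.1.1.unpair.1 w.1.2 :=
        Primrec₂.natPair.comp (pr_u1 gx) gq
      refine SI.and (SI.of_prim (PrimrecPred.and (Primrec.nat_le.comp gx gt)
        (Primrec.nat_lt.comp (Primrec.const L) gt))) (SI.and ?_ (SI.and ?_ ?_))
      · refine SI.trans (A := Z 0) ?_ hXB
        refine si_pre (Z 0) (β := (ℕ × ℕ) × ((ℕ × ℕ) × Bool)) (p := fun w σ =>
          F c σ (Nat.pair w.1.1.unpair.1 w.1.2) = w.2.2) ?_ Primrec.id gt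
        exact Primrec.eq.comp (pr_F (Primrec.const c) Primrec.snd (gg.comp Primrec.fst))
          (gb.comp Primrec.fst)
      · refine SI.trans (A := fl c (Z 0)) ?_ (tLe_join_right _ _)
        exact SI.query.comp (f := fun w : (ℕ × ℕ) × ((ℕ × ℕ) × Bool) =>
          (Nat.pair w.1.1.unpair.1 w.1.2, w.2.2)) (gg.pair gb)
      · refine SI.trans (A := Z 0) ?_ hXB
        refine si_pre (Z 0) (β := (ℕ × ℕ) × ((ℕ × ℕ) × Bool)) (p := fun w σ =>
          NS P Q c σ w.1.2 w.1.1 w.2.1.2) ?_ Primrec.id gs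
        exact pr_NS S (Primrec.const c) Primrec.snd (gq.comp Primrec.fst) (gx.comp Primrec.fst)
          (gt.comp Primrec.fst)
    have h4 : SI (join (Z 0) (fl c (Z 0))) fun x : ℕ => ∀ q < ul x.unpair.1,
        ¬ IN I (0 - (q : ℤ)) x ∨ ¬ MK Z I (0 - (q : ℤ)) x ∨ ∃ z : (ℕ × ℕ) × Bool,
        (x ≤ z.1.2 ∧ L < z.1.2) ∧ F c (pre (Z 0) z.1.2) (Nat.pair x.unpair.1 q) = z.2 ∧
        fl c (Z 0) (Nat.pair x.unpair.1 q) = z.2 ∧ NS P Q c (pre (Z 0) z.1.1) q x z.1.2 :=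
      SI.all_lt (p := fun x q => ¬ IN I (0 - (q : ℤ)) x ∨ ¬ MK Z I (0 - (q : ℤ)) x ∨
        ∃ z : (ℕ × ℕ) × Bool,
        (x ≤ z.1.2 ∧ L < z.1.2) ∧ F c (pre (Z 0) z.1.2) (Nat.pair x.unpair.1 q) = z.2 ∧
        fl c (Z 0) (Nat.pair x.unpair.1 q) = z.2 ∧ NS P Q c (pre (Z 0) z.1.1) q x z.1.2)
        (SI.or h1 (SI.or h2 h3)) (pr_ul (pr_u1 Primrec.id))
    refine (SI.or (SI.of_prim (pr_fin (fun x => ¬ AX P Q c (Z 0) x) (L + 1)))
      (SI.and (SI.of_prim (Primrec.nat_lt.comp (Primrec.const L) Primrec.id)) h4)).of_eq fun x => ?_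
    rw [Ac_true]
    by_cases hx : L < x
    · have e1 : ¬ (x < L + 1 ∧ ¬ AX P Q c (Z 0) x) := fun h => by omega
      rw [AX_iff_RC S O hL hk hx]
      push Not
      constructor
      · rintro (h | ⟨_, h⟩) q hq hRC
        · omega
        · obtain ⟨hIN, ⟨t, hf, hd⟩, hMK⟩ := hRC
          rcases h q hq with h | h | ⟨⟨⟨s, t'⟩, b⟩, ⟨g1, g2⟩, g3, g4, g5⟩
          · exact h hIN
          · exact h hMK
          · simp only at g1 g2 g3 g4 g5
            have g6 := (NS_iff S O hk hIN g5.1).1 g5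
            have g7 : t' < t := by
              by_contra h7
              exact g6 t (not_lt.1 h7) ⟨hf, hd⟩
            refine permit' S O hc hk hq hIN hf hd g1 g7.le ?_
            rw [g3, g4]
      · intro h
        refine Or.inr ⟨hx, fun q hq => ?_⟩
        by_cases hIN : IN I (0 - (q : ℤ)) x
        · by_cases hMK : MK Z I (0 - (q : ℤ)) x
          · right; right
            have hRR : ¬ RR P Q c Z (0 - (q : ℤ)) x := fun hRR => h q hq ⟨hIN, hRR, hMK⟩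
            obtain ⟨t0, ht0⟩ := F_lim c (Z 0) (Nat.pair x.unpair.1 q)
            obtain ⟨t, ht⟩ : ∃ t, t = max t0 (max x (L + 1)) := ⟨_, rfl⟩
            obtain ⟨s0, hs0⟩ := O.Vf_complete S hk (lt_of_lt_of_le hq (ul_le_NN _)) hIN.1 hIN.2 t
            refine ⟨((s0, t), fl c (Z 0) (Nat.pair x.unpair.1 q)), ⟨?_, ?_⟩, ht0 t (by omega), rfl,
              (NS_iff S O hk hIN (hs0 s0 le_rfl)).2 fun t' _ h7 => hRR ⟨t', h7.1, h7.2⟩⟩
            · simp only
              omega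
            · simp only
              omega
          · exact Or.inr (Or.inl hMK)
        · exact Or.inl hIN
    · constructor
      · rintro (h | ⟨h, _⟩)
        · exact h.2
        · exact absurd h hx
      · intro h
        exact Or.inl ⟨by omega, h⟩

end

end Pool.Agent.Run7.h353.PJ
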