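import Pool.Agent.Run7.h353.PJ.B8

set_option autoImplicit false

/-!
Invariance.
-/

namespace Pool.Agent.Run7.h353.PJ

open Encodable Pool.Agent.Helper227 Pool.Agent.H548R2.Post Pool.Agent.Run7.h353.PI
open Nat.Partrec (Code)

section
variable {α : Type*} [Primcodable α] {P Q : List Bool → List Bool} {I : Set ℤ}
  {Z : ℤ → ℕ → Bool} {c : Code}

theorem exists_ex (S : Sys P Q) (O : Orb P Q I Z) {k : ℤ} (hk : k ∈ I) (c : Code) {qf : ℕ → ℕ}
    (hqf : Primrec qf) {B : ℕ}
    (hC : ∀ x : ℕ, ub x.unpair.1 < 2 → qf x.unpair.1 < ul x.unpair.1 → VL x.unpair.1 →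
      IN I (k - qf x.unpair.1) x → MK Z I (k - qf x.unpair.1) x →
      x.unpair.1 < B ∨ ∃ t, Rf P Q (SR Z (k - qf x.unpair.1)) t x) :
    ∃ (L' : ℕ) (R : ℕ → Prop), SI (Z k) R ∧ ∀ x > L', ub x.unpair.1 < 2 →
      qf x.unpair.1 < ul x.unpair.1 → (R x ↔ ¬ RC P Q c Z I (k - qf x.unpair.1) x) := by
  obtain ⟨R2, hR2, h1, h2⟩ := exists_R2 S O hk c
  obtain ⟨M, hM⟩ := finite_RR P Q c Z (fun u => k - qf u) B
  refine ⟨M, fun x => x.unpair.1 < B ∨ R2 (qf x.unpair.1, x), SI.or (SI.of_prim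
    (Primrec.nat_lt.comp (pr_u1 Primrec.id) (Primrec.const B)))
    (hR2.comp (f := fun x : ℕ => (qf x.unpair.1, x)) ((hqf.comp (pr_u1 Primrec.id)).pair Primrec.id)),
    fun x hx hb hq => ?_⟩
  constructor
  · rintro (h | h) hRC
    · exact absurd (hM x h hRC.2.1) (by omega)
    · exact h1 _ _ h hRC
  · intro hRC
    by_cases h : x.unpair.1 < B
    · exact Or.inl h
    · exact Or.inr (h2 _ _ hq (fun hV hI hK => (hC x hb hq hV hI hK).resolve_left h) hRC)

/-- the cyclic lists -/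
theorem exists_cyc (O : Orb P Q I Z) (c : Code) : ∃ pp : ℕ → Prop, PrimrecPred pp ∧
    (∀ x, ub x.unpair.1 = 2 → pp x → ∀ k, (∃ q < ul x.unpair.1, RC P Q c Z I (k + 1 - q) x) ↔
      ∃ q < ul x.unpair.1, RC P Q c Z I (k - q) x) ∧
    ∀ x, ub x.unpair.1 = 2 → ¬ pp x → ∀ m, 0 < ul x.unpair.1 → IN I m x →
      ∃ t, Rf P Q (SR Z m) t x := by
  have key : ∀ (m : ℤ) (x : ℕ), ub x.unpair.1 = 2 → Z (m + ul x.unpair.1) ≠ Z m →
      ∃ t, Rf P Q (SR Z m) t x := by
    intro m x hb hne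
    by_contra h
    push Not at h
    refine hne (eq_of_pre fun t => ⟨t, le_rfl, ?_⟩)
    by_contra h1
    refine h t (Or.inr (Or.inr (Or.inr (Or.inr (Or.inr ⟨hb, ?_⟩)))))
    unfold SR
    rwa [Nat.cast_zero, add_zero]
  rcases O.cases with hap | ⟨p, hp, hI, hper, hdvd⟩
  · refine ⟨fun _ => False, PP.const False, fun x _ h => h.elim, fun x hb _ m hl hIN => ?_⟩
    refine key m x hb fun h => ?_
    have h1 := hIN.2
    unfold NN at h1
    rw [if_pos hb, show m + ((ul x.unpair.1 + 1 : ℕ) : ℤ) - 1 = m + ul x.unpair.1 by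
      push_cast; ring] at h1
    have := hap _ _ h1 hIN.1 h
    omega
  · refine ⟨fun x => ul x.unpair.1 = p, Primrec.eq.comp (pr_ul (pr_u1 Primrec.id))
      (Primrec.const p), fun x hb hpp k => ?_, fun x hb hpp m hl _ => ?_⟩
    · have hsh : ∀ m, RC P Q c Z I (m + p) x ↔ RC P Q c Z I m x := by
        intro m
        have e1 : SR Z (m + p) = SR Z m := by
          funext i t
          unfold SR
          rw [show m + (p : ℤ) + i = m + i + p by ring, hper]
        unfold RC RR IN MK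
        rw [e1]
        simp only [hI, true_and, hb, lt_irrefl, false_imp_iff, and_true]
      constructor
      · rintro ⟨q, hq, h⟩
        rcases Nat.eq_zero_or_pos q with h0 | h0
        · refine ⟨p - 1, by omega, ?_⟩
          rw [← hsh, show k - ((p - 1 : ℕ) : ℤ) + p = k + 1 - q by omega]
          exact h
        · refine ⟨q - 1, by omega, ?_⟩
          rw [show k - ((q - 1 : ℕ) : ℤ) = k + 1 - q by omega]
          exact h
      · rintro ⟨q, hq, h⟩
        by_cases h0 : q + 1 = p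
        · refine ⟨0, by omega, ?_⟩
          rw [← hsh, show k - (q : ℤ) + p = k + 1 - ((0 : ℕ) : ℤ) by omega] at h
          exact h
        · refine ⟨q + 1, by omega, ?_⟩
          rw [show k + 1 - ((q + 1 : ℕ) : ℤ) = k - q by push_cast; ring]
          exact h
    · by_cases h1 : Z (m + ul x.unpair.1) = Z m
      · have h2 := hdvd _ _ h1.symm
        rw [show m + (ul x.unpair.1 : ℤ) - m = (ul x.unpair.1 : ℤ) by ring] at h2
        have h3 := Nat.le_of_dvd hl (Int.natCast_dvd_natCast.1 h2)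
        exact Rf_of_eq (i := p) (lt_of_le_of_ne h3 (fun h => hpp h.symm)) hp (hper m)
      · exact key m x hb h1

theorem RC_sep {m m' : ℤ} {x : ℕ} (h : RC P Q c Z I m x) (h' : RC P Q c Z I m' x)
    (h1 : m < m') (h2 : m' < m + ul x.unpair.1) : False :=
  sep P Q c h.2.1 h'.2.1 h1 h2

theorem RC_iff_Aq (S : Sys P Q) (O : Orb P Q I Z) {L : ℕ} (hL : ∀ k ∈ I, ∀ t > L, ∀ s q N,
    Vf P Q (pre (Z k) s) q N t → k - q ∈ I ∧ k - q + N - 1 ∈ I) {k : ℤ} (hk : k ∈ I) {q x : ℕ}
    (hq : q < ul x.unpair.1) (hx : L < x) :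
    (∃ s, Aq P Q c (pre (Z k) s) q x) ↔ RC P Q c Z I (k - q) x :=
  ⟨Aq_iff S O hL hk hq hx, fun h => Aq_of S O hk hq h.1 h.2.1 h.2.2⟩

theorem inv1 (S : Sys P Q) (O : Orb P Q I Z) {k : ℤ} (hk : k ∈ I) (hk1 : k + 1 ∈ I) (c : Code) :
    TLe (Ac P Q c (Z (k + 1))) (join (Z k) (Ac P Q c (Z k))) := by
  obtain ⟨L0, hL⟩ := O.Vf_sound S
  have hXB := tLe_join_left (Z k) (Ac P Q c (Z k))
  have hAB := tLe_join_right (Z k) (Ac P Q c (Z k))
  have hYX : TLe (Z (k + 1)) (Z k) := by
    have := O.tLe S hk 1 0 (by simpa using hk1)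
    simpa using this
  have hYB : TLe (Z (k + 1)) (join (Z k) (Ac P Q c (Z k))) := hYX.trans hXB
  obtain ⟨B, hB⟩ := ex_start S O hk1 (by rw [add_sub_cancel_right]; exact hk)
  obtain ⟨L1, R1, hR1, hR1'⟩ := exists_ex S O hk1 c (qf := fun _ => 0) (Primrec.const 0) hB
  obtain ⟨R2, hR2, hR2a, hR2b⟩ := exists_R2 S O hk1 c
  obtain ⟨pp, hpp, hpp1, hpp2⟩ := exists_cyc (P := P) (Q := Q) O c
  obtain ⟨L, hL0L, hL1L⟩ : ∃ L, L0 ≤ L ∧ L1 ≤ L := ⟨max L0 L1, le_max_left _ _, le_max_right _ _⟩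
  refine tLe_of_both (((si_AX S c (Z (k + 1))).trans hYB).of_eq fun x => Ac_true.symm) ?_
  have hu : Primrec fun x : ℕ => x.unpair.1 := pr_u1 Primrec.id
  have q1 : SI (join (Z k) (Ac P Q c (Z k))) fun x : ℕ => ¬ AX P Q c (Z k) x := by
    refine SI.trans (A := Ac P Q c (Z k)) ?_ hAB
    refine (SI.query.comp (f := fun x : ℕ => (x, false)) (Primrec.id.pair
      (Primrec.const false))).of_eq fun x => ?_
    simp only
    rw [← Ac_true (P := P) (Q := Q) (c := c) (X := Z k)]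
    simp
  have q2 : SI (join (Z k) (Ac P Q c (Z k))) fun x : ℕ =>
      ∃ s, Aq P Q c (pre (Z k) s) (ul x.unpair.1 - 1) x :=
    (si_Aq S c (Z k) (Primrec.nat_sub.comp (pr_ul hu) (Primrec.const 1)) Primrec.id).trans hXB
  have q3 : SI (join (Z k) (Ac P Q c (Z k))) fun x : ℕ => ∀ q < ul x.unpair.1, R2 (q, x) := by
    refine SI.trans (A := Z (k + 1)) ?_ hYB
    exact SI.all_lt (p := fun x q => R2 (q, x)) (hR2.comp (f := fun y : ℕ × ℕ => (y.2, y.1))
      (Primrec.snd.pair Primrec.fst)) (pr_ul hu)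
  have b1 : SI (join (Z k) (Ac P Q c (Z k))) fun x : ℕ => ub x.unpair.1 < 2 :=
    SI.of_prim (Primrec.nat_lt.comp (pr_ub hu) (Primrec.const 2))
  have b2 : SI (join (Z k) (Ac P Q c (Z k))) fun x : ℕ => ub x.unpair.1 = 2 :=
    SI.of_prim (Primrec.eq.comp (pr_ub hu) (Primrec.const 2))
  have b3 : SI (join (Z k) (Ac P Q c (Z k))) fun x : ℕ => 2 < ub x.unpair.1 :=
    SI.of_prim (Primrec.nat_lt.comp (Primrec.const 2) (pr_ub hu))
  have b4 : SI (join (Z k) (Ac P Q c (Z k))) fun x : ℕ => ul x.unpair.1 = 0 :=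
    SI.of_prim (Primrec.eq.comp (pr_ul hu) (Primrec.const 0))
  have b5 : SI (join (Z k) (Ac P Q c (Z k))) fun x : ℕ => L < x :=
    SI.of_prim (Primrec.nat_lt.comp (Primrec.const L) Primrec.id)
  refine (SI.or (SI.of_prim (pr_fin (fun x => ¬ AX P Q c (Z (k + 1)) x) (L + 1)))
    (SI.and b5 (SI.or b3 (SI.or (SI.and b1 (SI.or b4 (SI.and (hR1.trans hYB) (SI.or q1 q2))))
    (SI.and b2 (SI.or (SI.and (SI.of_prim hpp) q1)
      (SI.and (SI.of_prim (PrimrecPred.not hpp)) q3))))))).of_eq fun x => ?_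
  rw [Ac_true]
  by_cases hx : L < x
  swap
  · constructor
    · rintro (h | ⟨h, _⟩)
      · exact h.2
      · exact absurd h hx
    · intro h
      exact Or.inl ⟨by omega, h⟩
  have e0 : ¬ x < L + 1 := by omega
  have AY := AX_iff_RC (c := c) S O hL hk1 (x := x) (lt_of_le_of_lt hL0L hx)
  have AXX := AX_iff_RC (c := c) S O hL hk (x := x) (lt_of_le_of_lt hL0L hx)
  simp only [e0, false_and, false_or, hx, true_and]
  rcases lt_trichotomy (ub x.unpair.1) 2 with hb | hb | hb
  · have c1 : ¬ 2 < ub x.unpair.1 := by omega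
    have c2 : ¬ ub x.unpair.1 = 2 := by omega
    simp only [c1, c2, false_and, or_false, false_or, hb, true_and]
    rcases Nat.eq_zero_or_pos (ul x.unpair.1) with hl | hl
    · simp only [hl, true_or, true_iff]
      rw [AY]
      rintro ⟨q, hq, _⟩
      omega
    · have c3 : ¬ ul x.unpair.1 = 0 := by omega
      simp only [c3, false_or]
      have hx0 : L0 < x := lt_of_le_of_lt hL0L hx
      have hx1 : x > L1 := lt_of_le_of_lt hL1L hx
      have hlu : ul x.unpair.1 - 1 < ul x.unpair.1 := by omega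
      rw [hR1' x hx1 hb hl, RC_iff_Aq S O hL hk hlu hx0]
      rw [Nat.cast_zero, sub_zero]
      constructor
      · rintro ⟨g1, g2⟩ hA
        rw [AY] at hA
        obtain ⟨q, hq, g3⟩ := hA
        rcases Nat.eq_zero_or_pos q with h0 | h0
        · subst h0
          rw [Nat.cast_zero, sub_zero] at g3
          exact g1 g3
        · have e1 : k + 1 - (q : ℤ) = k - ((q - 1 : ℕ) : ℤ) := by omega
          rw [e1] at g3
          rcases g2 with g2 | g2
          · exact g2 (AXX.2 ⟨q - 1, by omega, g3⟩)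
          · exact RC_sep g2 g3 (by omega) (by omega)
      · intro hA
        refine ⟨fun h => hA (AY.2 ⟨0, hl, by rw [Nat.cast_zero, sub_zero]; exact h⟩), ?_⟩
        by_contra hcon
        push Not at hcon
        obtain ⟨g1, g2⟩ := hcon
        obtain ⟨q, hq, g3⟩ := AXX.1 g1
        by_cases h0 : q = ul x.unpair.1 - 1
        · subst h0
          exact g2 g3
        · refine hA (AY.2 ⟨q + 1, by omega, ?_⟩)
          rw [show k + 1 - ((q + 1 : ℕ) : ℤ) = k - q by push_cast; ring]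
          exact g3
  · simp only [hb, lt_irrefl, false_and, or_false, false_or, true_and]
    by_cases hp : pp x
    · simp only [hp, true_and, not_true_eq_false, false_and, or_false]
      rw [AY, AXX, hpp1 x hb hp k]
    · simp only [hp, false_and, not_false_eq_true, true_and, false_or]
      rw [AY]
      push Not
      constructor
      · exact fun h q hq => hR2a _ _ (h q hq)
      · exact fun h q hq => hR2b _ _ hq (fun _ hIN _ =>
          hpp2 x hb hp _ (by omega) hIN) (h q hq)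
  · simp only [hb, true_or, true_iff]
    rw [AY]
    rintro ⟨q, hq, h⟩
    have := (VL_of_RR h.2.1).2.2.2
    omega

theorem inv2 (S : Sys P Q) (O : Orb P Q I Z) {k : ℤ} (hk : k ∈ I) (hk1 : k + 1 ∈ I) (c : Code) :
    TLe (Ac P Q c (Z k)) (join (Z (k + 1)) (Ac P Q c (Z (k + 1)))) := by
  obtain ⟨L0, hL⟩ := O.Vf_sound S
  have hXB := tLe_join_left (Z (k + 1)) (Ac P Q c (Z (k + 1)))
  have hAB := tLe_join_right (Z (k + 1)) (Ac P Q c (Z (k + 1)))
  have hYX : TLe (Z k) (Z (k + 1)) := by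
    have := O.tLe S hk1 0 1 (by simpa using hk)
    simpa using this
  have hYB : TLe (Z k) (join (Z (k + 1)) (Ac P Q c (Z (k + 1)))) := hYX.trans hXB
  obtain ⟨B, hB⟩ := ex_end S O hk hk1
  obtain ⟨L1, R1, hR1, hR1'⟩ := exists_ex S O hk c (qf := fun u => ul u - 1)
    (Primrec.nat_sub.comp (pr_ul Primrec.id) (Primrec.const 1)) hB
  obtain ⟨R2, hR2, hR2a, hR2b⟩ := exists_R2 S O hk c
  obtain ⟨pp, hpp, hpp1, hpp2⟩ := exists_cyc (P := P) (Q := Q) O c
  obtain ⟨L, hL0L, hL1L⟩ : ∃ L, L0 ≤ L ∧ L1 ≤ L := ⟨max L0 L1, le_max_left _ _, le_max_right _ _⟩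
  refine tLe_of_both (((si_AX S c (Z k)).trans hYB).of_eq fun x => Ac_true.symm) ?_
  have hu : Primrec fun x : ℕ => x.unpair.1 := pr_u1 Primrec.id
  have q1 : SI (join (Z (k + 1)) (Ac P Q c (Z (k + 1)))) fun x : ℕ =>
      ¬ AX P Q c (Z (k + 1)) x := by
    refine SI.trans (A := Ac P Q c (Z (k + 1))) ?_ hAB
    refine (SI.query.comp (f := fun x : ℕ => (x, false)) (Primrec.id.pair
      (Primrec.const false))).of_eq fun x => ?_
    simp only
    rw [← Ac_true (P := P) (Q := Q) (c := c) (X := Z (k + 1))]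
    simp
  have q2 : SI (join (Z (k + 1)) (Ac P Q c (Z (k + 1)))) fun x : ℕ =>
      ∃ s, Aq P Q c (pre (Z (k + 1)) s) 0 x :=
    (si_Aq S c (Z (k + 1)) (Primrec.const 0) Primrec.id).trans hXB
  have q3 : SI (join (Z (k + 1)) (Ac P Q c (Z (k + 1)))) fun x : ℕ =>
      ∀ q < ul x.unpair.1, R2 (q, x) := by
    refine SI.trans (A := Z k) ?_ hYB
    exact SI.all_lt (p := fun x q => R2 (q, x)) (hR2.comp (f := fun y : ℕ × ℕ => (y.2, y.1))
      (Primrec.snd.pair Primrec.fst)) (pr_ul hu)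
  have b1 : SI (join (Z (k + 1)) (Ac P Q c (Z (k + 1)))) fun x : ℕ => ub x.unpair.1 < 2 :=
    SI.of_prim (Primrec.nat_lt.comp (pr_ub hu) (Primrec.const 2))
  have b2 : SI (join (Z (k + 1)) (Ac P Q c (Z (k + 1)))) fun x : ℕ => ub x.unpair.1 = 2 :=
    SI.of_prim (Primrec.eq.comp (pr_ub hu) (Primrec.const 2))
  have b3 : SI (join (Z (k + 1)) (Ac P Q c (Z (k + 1)))) fun x : ℕ => 2 < ub x.unpair.1 :=
    SI.of_prim (Primrec.nat_lt.comp (Primrec.const 2) (pr_ub hu))
  have b4 : SI (join (Z (k + 1)) (Ac P Q c (Z (k + 1)))) fun x : ℕ => ul x.unpair.1 = 0 :=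
    SI.of_prim (Primrec.eq.comp (pr_ul hu) (Primrec.const 0))
  have b5 : SI (join (Z (k + 1)) (Ac P Q c (Z (k + 1)))) fun x : ℕ => L < x :=
    SI.of_prim (Primrec.nat_lt.comp (Primrec.const L) Primrec.id)
  refine (SI.or (SI.of_prim (pr_fin (fun x => ¬ AX P Q c (Z k) x) (L + 1)))
    (SI.and b5 (SI.or b3 (SI.or (SI.and b1 (SI.or b4 (SI.and (hR1.trans hYB) (SI.or q1 q2))))
    (SI.and b2 (SI.or (SI.and (SI.of_prim hpp) q1)
      (SI.and (SI.of_prim (PrimrecPred.not hpp)) q3))))))).of_eq fun x => ?_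
  rw [Ac_true]
  by_cases hx : L < x
  swap
  · constructor
    · rintro (h | ⟨h, _⟩)
      · exact h.2
      · exact absurd h hx
    · intro h
      exact Or.inl ⟨by omega, h⟩
  have e0 : ¬ x < L + 1 := by omega
  have AY := AX_iff_RC (c := c) S O hL hk1 (x := x) (lt_of_le_of_lt hL0L hx)
  have AXX := AX_iff_RC (c := c) S O hL hk (x := x) (lt_of_le_of_lt hL0L hx)
  simp only [e0, false_and, false_or, hx, true_and]
  rcases lt_trichotomy (ub x.unpair.1) 2 with hb | hb | hb
  · have c1 : ¬ 2 < ub x.unpair.1 := by omega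
    have c2 : ¬ ub x.unpair.1 = 2 := by omega
    simp only [c1, c2, false_and, or_false, false_or, hb, true_and]
    rcases Nat.eq_zero_or_pos (ul x.unpair.1) with hl | hl
    · simp only [hl, true_or, true_iff]
      rw [AXX]
      rintro ⟨q, hq, _⟩
      omega
    · have c3 : ¬ ul x.unpair.1 = 0 := by omega
      simp only [c3, false_or]
      have hx0 : L0 < x := lt_of_le_of_lt hL0L hx
      have hx1 : x > L1 := lt_of_le_of_lt hL1L hx
      have hlu : ul x.unpair.1 - 1 < ul x.unpair.1 := by omega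
      rw [hR1' x hx1 hb hlu, RC_iff_Aq S O hL hk1 hl hx0]
      rw [Nat.cast_zero, sub_zero]
      constructor
      · rintro ⟨g1, g2⟩ hA
        rw [AXX] at hA
        obtain ⟨q, hq, g3⟩ := hA
        by_cases h0 : q = ul x.unpair.1 - 1
        · subst h0
          exact g1 g3
        · rcases g2 with g2 | g2
          · refine g2 (AY.2 ⟨q + 1, by omega, ?_⟩)
            rw [show k + 1 - ((q + 1 : ℕ) : ℤ) = k - q by push_cast; ring]
            exact g3
          · exact RC_sep g3 g2 (by omega) (by omega)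
      · intro hA
        refine ⟨fun h => hA (AXX.2 ⟨_, by omega, h⟩), ?_⟩
        by_contra hcon
        push Not at hcon
        obtain ⟨g1, g2⟩ := hcon
        obtain ⟨q, hq, g3⟩ := AY.1 g1
        rcases Nat.eq_zero_or_pos q with h0 | h0
        · subst h0
          rw [Nat.cast_zero, sub_zero] at g3
          exact g2 g3
        · refine hA (AXX.2 ⟨q - 1, by omega, ?_⟩)
          rw [show k - ((q - 1 : ℕ) : ℤ) = k + 1 - q by omega]
          exact g3
  · simp only [hb, lt_irrefl, false_and, or_false, false_or, true_and]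
    by_cases hp : pp x
    · simp only [hp, true_and, not_true_eq_false, false_and, or_false]
      rw [AY, AXX, hpp1 x hb hp k]
    · simp only [hp, false_and, not_false_eq_true, true_and, false_or]
      rw [AXX]
      push Not
      constructor
      · exact fun h q hq => hR2a _ _ (h q hq)
      · exact fun h q hq => hR2b _ _ hq (fun _ hIN _ =>
          hpp2 x hb hp _ (by omega) hIN) (h q hq)
  · simp only [hb, true_or, true_iff]
    rw [AXX]
    rintro ⟨q, hq, h⟩
    have := (VL_of_RR h.2.1).2.2.2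
    omega

end

end Pool.Agent.Run7.h353.PJ
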